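import Pool.Agent.LibPcf.Str

/-! [GS76] Cofinalities, filtrations, demands. -/

set_option autoImplicit false

namespace Pool.Agent.LibPcf

open Cardinal Set Order Filter
open Pool.Agent.LibGP76 Pool.Agent.LibGPR

/-- The cofinality of the point `y` is larger than `c`. -/
def CofGt {K : Type} [LinearOrder K] (y : K) (c : Cardinal.{0}) : Prop :=
  ∀ S : Set K, #S ≤ c → (∀ s ∈ S, s < y) → ∃ b < y, ∀ s ∈ S, s < b

theorem CofGt.mono {K : Type} [LinearOrder K] {y : K} {c c' : Cardinal.{0}} (h : CofGt y c)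
    (hc : c' ≤ c) : CofGt y c' := fun S hS hSy => h S (hS.trans hc) hSy

theorem CofGt.fam {K : Type} [LinearOrder K] {y : K} {c : Cardinal.{0}} (h : CofGt y c)
    {I : Type} (hI : #I ≤ c) (f : I → K) (hf : ∀ i, f i < y) : ∃ b < y, ∀ i, f i < b := by
  obtain ⟨b, hb, hb'⟩ := h (range f) (mk_range_le.trans hI) (by rintro _ ⟨i, rfl⟩; exact hf i)
  exact ⟨b, hb, fun i => hb' _ ⟨i, rfl⟩⟩

/-- `r` is a limit point (of the whole well-order). -/
def Lim {M : Type} [LinearOrder M] (r : M) : Prop :=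
  (∃ t, t < r) ∧ ∀ t < r, ∃ t', t < t' ∧ t' < r

/-- `θ` is a continuous increasing cofinal sequence of cardinals below `α`, with gaps. -/
structure Thetas (M : Type) [LinearOrder M] (α : Cardinal.{0}) (θ : M → Cardinal.{0}) : Prop where
  lim : ∀ c < α, ∃ r, c < θ r
  lt : ∀ r, θ r < α
  gap : ∀ t r, t < r → succ (succ (succ (succ (succ (θ t))))) ≤ θ r
  cont : ∀ r, Lim r → ∀ c < θ r, ∃ t < r, c < θ t
  base : ∀ r, succ (succ (succ (succ #M))) ≤ θ r
  inf : ∀ r, ℵ₀ ≤ θ r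

theorem Thetas.mono {M : Type} [LinearOrder M] {α : Cardinal.{0}} {θ : M → Cardinal.{0}}
    (h : Thetas M α θ) {t r : M} (htr : t ≤ r) : θ t ≤ θ r := by
  rcases htr.lt_or_eq with h' | rfl
  · exact ((le_succ _).trans <| (le_succ _).trans <| (le_succ _).trans <| (le_succ _).trans <|
      (le_succ _)).trans (h.gap t r h')
  · exact le_rfl

theorem Thetas.mkM {M : Type} [LinearOrder M] {α : Cardinal.{0}} {θ : M → Cardinal.{0}}
    (h : Thetas M α θ) (r : M) : #M ≤ θ r :=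
  ((le_succ _).trans <| (le_succ _).trans <| (le_succ _).trans <| (le_succ _)).trans (h.base r)

/-- Initial segments of cardinality less than `c` make up a set of cardinality at most `c`. -/
theorem mk_small_le {O : Type} [LinearOrder O] [WellFoundedLT O] (c : Cardinal.{0}) :
    #{o : O | #(Set.Iio o) < c} ≤ c := by
  by_contra hcon
  rw [not_le] at hcon
  set A : Set O := {o : O | #(Set.Iio o) < c} with hA
  have h1 : c.ord < Ordinal.type (α := A) (· < ·) := by
    by_contra h2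
    rw [not_lt] at h2
    have := Ordinal.card_le_card h2
    rw [card_ord, Ordinal.card_type] at this
    exact absurd hcon (not_lt.2 this)
  obtain ⟨a, ha⟩ := Ordinal.typein_surj (α := A) (· < ·) h1
  have h2 : #{b : A // b < a} = c := by
    have := Ordinal.card_typein (r := fun a b : A => a < b) a
    rw [ha, card_ord] at this
    exact this.symm
  have h3 : #{b : A // b < a} ≤ #(Set.Iio a.1) := by
    refine mk_le_of_injective (f := fun b => (⟨b.1.1, b.2⟩ : Set.Iio a.1)) ?_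
    intro x y hxy
    exact Subtype.ext (Subtype.ext (congrArg (fun z : Set.Iio a.1 => z.1) hxy))
  rw [h2] at h3
  exact absurd a.2 (not_lt.2 h3)

/-- Filtrations of sets of size at most `α`. -/
theorem exists_filt {M : Type} [LinearOrder M] {α : Cardinal.{0}} {θ : M → Cardinal.{0}}
    (hθ : Thetas M α θ) {X : Type} (S : Set X) (hS : #S ≤ α) :
    ∃ Δ : M → Set X, (∀ t r, t ≤ r → Δ t ⊆ Δ r) ∧ (∀ r, #(Δ r) ≤ θ r) ∧ (∀ r, Δ r ⊆ S) ∧
      ∀ x ∈ S, ∃ r, x ∈ Δ r := by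
  have h1 : #S ≤ #α.ord.ToType := by rwa [mk_ord_toType]
  obtain ⟨φ⟩ := h1
  refine ⟨fun r => {x | ∃ h : x ∈ S, #(Set.Iio (φ ⟨x, h⟩)) < θ r}, ?_, ?_, ?_, ?_⟩
  · rintro t r htr x ⟨h, hx⟩
    exact ⟨h, hx.trans_le (hθ.mono htr)⟩
  · intro r
    refine le_trans ?_ (mk_small_le (O := α.ord.ToType) (θ r))
    refine mk_le_of_injective (f := fun x => ⟨φ ⟨x.1, x.2.choose⟩, x.2.choose_spec⟩) ?_
    intro x y hxy
    have := φ.injective (congrArg Subtype.val hxy)
    exact Subtype.ext (congrArg (fun z : S => z.1) this)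
  · rintro r x ⟨h, hx⟩
    exact h
  · intro x hx
    obtain ⟨r, hr⟩ := hθ.lim _ (mk_Iio_toType_ord_lt (φ ⟨x, hx⟩))
    exact ⟨r, hx, hr⟩

/-- Parts of sets of size at most `θ r` (`r` a limit). -/
theorem exists_parts {M : Type} [LinearOrder M] [WellFoundedLT M] {α : Cardinal.{0}}
    {θ : M → Cardinal.{0}}
    (hθ : Thetas M α θ) {r : M} (hr : Lim r) {X : Type} (S : Set X) (hS : #S ≤ θ r) :
    ∃ pn : X → M, (∀ x ∈ S, pn x < r) ∧ ∀ t, #{x | x ∈ S ∧ pn x ≤ t} ≤ θ t := by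
  classical
  have h1 : #S ≤ #(θ r).ord.ToType := by rwa [mk_ord_toType]
  obtain ⟨φ⟩ := h1
  have h2 : ∀ x : S, ∃ t < r, #(Set.Iio (φ x)) < θ t := fun x =>
    hθ.cont r hr _ (mk_Iio_toType_ord_lt (φ x))
  choose f hf1 hf2 using h2
  refine ⟨fun x => if h : x ∈ S then f ⟨x, h⟩ else r, ?_, ?_⟩
  · intro x hx
    dsimp only
    rw [dif_pos hx]
    exact hf1 _
  · intro t
    refine le_trans ?_ (mk_small_le (O := (θ r).ord.ToType) (θ t))
    have h3 : ∀ x : {x | x ∈ S ∧ (if h : x ∈ S then f ⟨x, h⟩ else r) ≤ t},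
        #(Set.Iio (φ ⟨x.1, x.2.1⟩)) < θ t := by
      intro x
      have h4 := x.2.2
      rw [dif_pos x.2.1] at h4
      exact (hf2 _).trans_le (hθ.mono h4)
    refine mk_le_of_injective (f := fun x => ⟨φ ⟨x.1, x.2.1⟩, h3 x⟩) ?_
    intro x y hxy
    have := φ.injective (congrArg Subtype.val hxy)
    exact Subtype.ext (congrArg (fun z : S => z.1) this)

/-- Pigeonhole for regular well-orders. -/
theorem pigeon {K T : Type} [LinearOrder K] (h : RegK K) (hT : #T < #K) (S : Set K) (hS : Ub S)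
    (f : K → T) : ∃ t, Ub {x | x ∈ S ∧ f x = t} := by
  by_contra hcon
  unfold Ub at hcon
  push Not at hcon
  choose c hc using hcon
  obtain ⟨b, hb⟩ := exists_sup h hT c
  obtain ⟨s, hs, hbs⟩ := hS b
  exact absurd (hc (f s) s ⟨hs, rfl⟩) (not_le.2 ((hb _).trans hbs))

/-- A regular well-order of successor cardinality. -/
theorem exists_regK_succ (c : Cardinal.{0}) (hc : ℵ₀ ≤ c) :
    ∃ (D : Type) (_ : LinearOrder D) (_ : WellFoundedLT D), RegK D ∧ #D = succ c :=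
  ⟨(succ c).ord.ToType, inferInstance, inferInstance,
    regK_ord (isRegular_succ hc) (hc.trans_lt (lt_succ c)), mk_ord_toType _⟩

/-- Functions meeting demands. -/
theorem exists_dem {L W K : Type} [LinearOrder L] [WellFoundedLT L] [LinearOrder K] [Nonempty K]
    (c : W → Cardinal.{0}) (y : W → K) (hy : ∀ w, CofGt (y w) (c w))
    (dem : L → W → Set L) (hdem : ∀ ξ w, #(dem ξ w) ≤ c w) (hlt : ∀ ξ w, ∀ β ∈ dem ξ w, β < ξ)
    (val : L → W → Set K) (hval : ∀ ξ w, #(val ξ w) ≤ c w) (hval' : ∀ ξ w, ∀ x ∈ val ξ w, x < y w) :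
    ∃ g : L → W → K, (∀ ξ w, g ξ w < y w) ∧ (∀ ξ w, ∀ β ∈ dem ξ w, g β w < g ξ w) ∧
      ∀ ξ w, ∀ x ∈ val ξ w, x < g ξ w := by
  classical
  obtain ⟨g, hg⟩ := exists_rec (D := L) (A := W → K)
    (fun ξ g s => ∀ w, (∀ β ∈ dem ξ w, g β w < y w) →
      s w < y w ∧ (∀ β ∈ dem ξ w, g β w < s w) ∧ ∀ x ∈ val ξ w, x < s w)
    (by
      intro ξ g g' s hgg h w h2
      have h3 := h w (fun β hβ => by rw [hgg β (hlt ξ w β hβ)]; exact h2 β hβ)
      exact ⟨h3.1, fun β hβ => by rw [← hgg β (hlt ξ w β hβ)]; exact h3.2.1 β hβ, h3.2.2⟩)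
    (by
      intro ξ g
      have : ∀ w, ∃ s : K, (∀ β ∈ dem ξ w, g β w < y w) →
          s < y w ∧ (∀ β ∈ dem ξ w, g β w < s) ∧ ∀ x ∈ val ξ w, x < s := by
        intro w
        by_cases h : ∀ β ∈ dem ξ w, g β w < y w
        · obtain ⟨b, hb, hb'⟩ := hy w ((fun β => g β w) '' dem ξ w)
            (mk_image_le.trans (hdem ξ w)) (by rintro _ ⟨β, hβ, rfl⟩; exact h β hβ)
          obtain ⟨b2, hb2, hb2'⟩ := hy w (val ξ w) (hval ξ w) (hval' ξ w)
          exact ⟨max b b2, fun _ => ⟨max_lt hb hb2,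
            fun β hβ => (hb' _ ⟨β, hβ, rfl⟩).trans_le (le_max_left _ _),
            fun x hx => (hb2' x hx).trans_le (le_max_right _ _)⟩⟩
        · exact ⟨Classical.arbitrary K, fun h' => absurd h' h⟩
      choose s hs using this
      exact ⟨s, fun w => hs w⟩)
  have h1 : ∀ ξ w, g ξ w < y w := by
    intro ξ
    induction ξ using WellFoundedLT.induction with
    | _ ξ ih =>
      intro w
      exact (hg ξ w (fun β hβ => ih β (hlt ξ w β hβ) w)).1
  exact ⟨g, h1, fun ξ w => (hg ξ w (fun β _ => h1 β w)).2.1,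
    fun ξ w => (hg ξ w (fun β _ => h1 β w)).2.2⟩

end Pool.Agent.LibPcf
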