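import Pool.Agent.LibPcf.Tree

/-! [GS76] FIN: good ladders of type `α` (singular) on a long scale, guessing clubs. -/

set_option autoImplicit false

namespace Pool.Agent.LibPcf

open Cardinal Set Order Filter
open Pool.Agent.LibGP76 Pool.Agent.LibGPR

variable {M L Λ K W : Type} [LinearOrder M] [LinearOrder L] [LinearOrder Λ] [LinearOrder K]
  [WellFoundedLT M] [WellFoundedLT L] [WellFoundedLT Λ] [WellFoundedLT K]

/-- A good set of levels. -/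
def GoodR (rk : W → M) (f : Λ → W → K) (R : Set Λ) : Prop :=
  ∀ v ∈ R, ∀ v' ∈ R, v < v' → ∃ β < v', ∃ r₀, ∀ w, r₀ ≤ rk w → ∀ u ∈ R, u ≤ v → f u w < f β w

/-- A good set of levels of type `α`, cofinal in `δ`. -/
def FinR (α : Cardinal.{0}) (rk : W → M) (f : Λ → W → K) (δ : Λ) (R : Set Λ) : Prop :=
  (∀ v ∈ R, v < δ) ∧ #R = α ∧ (∀ v < δ, #{u | u ∈ R ∧ u < v} < α) ∧ GoodR rk f R

omit [WellFoundedLT Λ] in
theorem mk_le_of_small [WellFoundedLT Λ] (S : Set Λ) (c : Cardinal.{0})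
    (h : ∀ x ∈ S, #{y | y ∈ S ∧ y < x} < c) : #S ≤ c := by
  refine le_trans ?_ (mk_small_le (O := S) c)
  refine mk_le_of_injective (f := fun x => ⟨x, ?_⟩) ?_
  · show #(Set.Iio x) < c
    refine lt_of_le_of_lt ?_ (h x.1 x.2)
    refine mk_le_of_injective (f := fun y : Set.Iio x =>
      (⟨y.1.1, y.1.2, y.2⟩ : {y | y ∈ S ∧ y < x.1})) ?_
    intro y y' hyy
    exact Subtype.ext (Subtype.ext (congrArg (fun z : {y | y ∈ S ∧ y < x.1} => z.1) hyy))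
  · intro x y hxy
    exact congrArg (fun z : {o : S | #(Set.Iio o) < c} => z.1) hxy

omit [LinearOrder Λ] [WellFoundedLT M] [WellFoundedLT Λ] [WellFoundedLT K] in
theorem bound_small {α : Cardinal.{0}} {θ : M → Cardinal.{0}} (hθ : Thetas M α θ)
    (rk : W → M) (y : W → K) (hy : ∀ w, CofGt (y w) (θ (rk w))) [Nonempty Λ] (f : Λ → W → K)
    (hf1 : ∀ ξ w, f ξ w < y w)
    (hf3 : ∀ ι : W → K, (∀ w, ι w < y w) → ∃ ξ r₀, ∀ w, r₀ ≤ rk w → ι w < f ξ w)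
    (Q : Set Λ) (hQ : #Q < α) : ∃ β r₀, ∀ w, r₀ ≤ rk w → ∀ u ∈ Q, f u w < f β w := by
  classical
  obtain ⟨r₁, hr₁⟩ := hθ.lim _ hQ
  have h1 : ∀ w, ∃ b, b < y w ∧ (r₁ ≤ rk w → ∀ u ∈ Q, f u w < b) := by
    intro w
    by_cases hw : r₁ ≤ rk w
    · obtain ⟨b, hb1, hb2⟩ := (hy w).fam (I := Q) (hr₁.le.trans (hθ.mono hw)) (fun u => f u.1 w)
        (fun u => hf1 _ _)
      exact ⟨b, hb1, fun _ u hu => hb2 ⟨u, hu⟩⟩
    · exact ⟨f (Classical.arbitrary Λ) w, hf1 _ _, fun h => absurd h hw⟩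
  choose b hb1 hb2 using h1
  obtain ⟨ξ, r₀, h⟩ := hf3 b hb1
  exact ⟨ξ, max r₀ r₁, fun w hw u hu => (hb2 w ((le_max_right _ _).trans hw) u hu).trans
    (h w ((le_max_left _ _).trans hw))⟩

omit [WellFoundedLT Λ] in
/-- The branching sets. -/
theorem exists_br {α : Cardinal.{0}} (hL : RegK L) (hLα : #L = succ α) :
    ∃ Br : L → Λ → Set Λ, (∀ ζ y, #(Br ζ y) ≤ α) ∧ (∀ ζ y, ∀ c ∈ Br ζ y, c < y) ∧
      ∀ y, ¬ CofGt y (succ α) → ∀ (ζc : Λ → L) (Q : Set Λ), #Q ≤ α → (∀ e ∈ Q, e < y) →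
        ∃ (b : L → L) (η : L), ∀ ζ ∈ Cl b, η < ζ → (∀ c ∈ Br ζ y, ζc c ≤ ζ) ∧
          ∀ e ∈ Q, ∃ c ∈ Br ζ y, e ≤ c := by
  classical
  have hLne := nonempty_of_regK hL
  have hIio : ∀ ξ : L, #(Set.Iio ξ) ≤ α := fun ξ => by
    have := hL.small ξ
    rw [hLα] at this
    exact lt_succ_iff.1 this
  have h0 : ∀ y : Λ, ∃ Br : L → Set Λ, (∀ ζ, #(Br ζ) ≤ α) ∧ (∀ ζ, ∀ c ∈ Br ζ, c < y) ∧
      (¬ CofGt y (succ α) → ∀ (ζc : Λ → L) (Q : Set Λ), #Q ≤ α → (∀ e ∈ Q, e < y) →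
        ∃ (b : L → L) (η : L), ∀ ζ ∈ Cl b, η < ζ → (∀ c ∈ Br ζ, ζc c ≤ ζ) ∧
          ∀ e ∈ Q, ∃ c ∈ Br ζ, e ≤ c) := by
    intro y
    by_cases h1 : CofGt y α
    · by_cases h2 : CofGt y (succ α)
      · exact ⟨fun _ => ∅, fun _ => by rw [mk_eq_zero]; exact bot_le,
          fun _ c hc => absurd hc (notMem_empty c), fun h => absurd h2 h⟩
      · obtain ⟨σ, hσ⟩ := exists_lad_succ hL hLα y h1 h2
        refine ⟨fun ζ => σ '' Set.Iio ζ, fun ζ => mk_image_le.trans (hIio ζ), ?_, ?_⟩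
        · rintro ζ _ ⟨i, _, rfl⟩
          exact hσ.2.1 i
        · intro _ ζc Q hQ hQy
          obtain ⟨z, hz, hzQ⟩ := h1 Q hQ hQy
          obtain ⟨i, hi⟩ := hσ.2.2 z hz
          refine ⟨fun ξ => ζc (σ ξ), i, fun ζ hζ hiζ => ⟨?_, ?_⟩⟩
          · rintro _ ⟨ξ, hξ, rfl⟩
            exact (hζ ξ hξ).le
          · intro e he
            exact ⟨σ i, ⟨i, hiζ, rfl⟩, ((hzQ e he).trans hi).le⟩
    · have h3 := h1
      unfold CofGt at h3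
      push Not at h3
      obtain ⟨S, hS1, hS2, hS3⟩ := h3
      refine ⟨fun _ => S, fun _ => hS1, fun _ => hS2, fun _ ζc Q hQ hQy => ?_⟩
      obtain ⟨η, hη⟩ := exists_sup hL (ι := S) (hS1.trans_lt (by rw [hLα]; exact lt_succ _))
        (fun c => ζc c.1)
      refine ⟨id, η, fun ζ _ hζ => ⟨fun c hc => ((hη ⟨c, hc⟩).trans hζ).le, fun e he => ?_⟩⟩
      obtain ⟨s, hs, hes⟩ := hS3 e (hQy e he)
      exact ⟨s, hs, hes⟩
  choose Br h1 h2 h3 using h0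
  exact ⟨fun ζ y => Br y ζ, fun ζ y => h1 y ζ, fun ζ y => h2 y ζ, h3⟩

/-- The floor tree of `c`. -/
def FT (Br : L → Λ → Set Λ) (b : Λ → Λ) (ζ : L) (c : Λ) : Set Λ :=
  {x | Tr (fun x => fl b '' Br ζ x) (fl b c) x}

omit [LinearOrder L] [WellFoundedLT L] in
theorem FT_le {Br : L → Λ → Set Λ} (hBr : ∀ ζ y, ∀ c ∈ Br ζ y, c < y) {b : Λ → Λ} {ζ : L} {c x : Λ}
    (hx : x ∈ FT Br b ζ c) : x ≤ fl b c := by
  have hx' : Tr (fun x => fl b '' Br ζ x) (fl b c) x := hx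
  clear hx
  induction hx' with
  | root => exact le_rfl
  | step x y hx hy ih =>
    obtain ⟨c', hc', rfl⟩ := hy
    exact ((fl_le _ _).trans (hBr _ _ _ hc').le).trans ih

omit [WellFoundedLT M] [WellFoundedLT K] in
theorem fin_guess {α : Cardinal.{0}} {θ : M → Cardinal.{0}} (hθ : Thetas M α θ)
    (hα : ℵ₀ ≤ α) (hL : RegK L) (hLα : #L = succ α) (hΛ : RegK Λ) (hαΛ : succ (succ α) ≤ #Λ)
    (rk : W → M) (y : W → K) (hy : ∀ w, CofGt (y w) (θ (rk w))) (f : Λ → W → K)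
    (hf1 : ∀ ξ w, f ξ w < y w)
    (hf3 : ∀ ι : W → K, (∀ w, ι w < y w) → ∃ ξ r₀, ∀ w, r₀ ≤ rk w → ι w < f ξ w) :
    ∃ R : Λ → Set Λ, (∀ δ, (R δ).Nonempty → FinR α rk f δ (R δ)) ∧
      ∀ E : Λ → Λ, ∃ δ, (R δ).Nonempty ∧ ∃ t < δ, ∀ v ∈ R δ, t < v → v ∈ Cl E := by
  classical
  haveI hLne := nonempty_of_regK hL
  haveI hΛne := nonempty_of_regK hΛ
  have hLΛ : #L < #Λ := by
    rw [hLα]
    exact (lt_succ _).trans_le hαΛ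
  have hαL : α < #L := by
    rw [hLα]
    exact lt_succ _
  obtain ⟨Br, hBr1, hBr2, hBr3⟩ := exists_br (Λ := Λ) hL hLα
  -- the systems
  let VV : (Λ → Λ) → L → Λ → Set Λ := fun b ζ δ => {x | ∃ c ∈ Br ζ δ, x ∈ FT Br b ζ c}
  have hR0 : ∀ (b : Λ → Λ) (ζ : L) (δ : Λ), ∃ R : Set Λ, (R.Nonempty → FinR α rk f δ R) ∧
      ((∃ y, y < δ ∧ FinR α rk f δ (VV b ζ δ ∩ Set.Ici y)) → R.Nonempty ∧
        ∃ y, y < δ ∧ R = VV b ζ δ ∩ Set.Ici y) := by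
    intro b ζ δ
    by_cases h : ∃ y, y < δ ∧ FinR α rk f δ (VV b ζ δ ∩ Set.Ici y)
    · obtain ⟨y, hy1, hy2⟩ := h
      refine ⟨VV b ζ δ ∩ Set.Ici y, fun _ => hy2, fun _ => ⟨?_, y, hy1, rfl⟩⟩
      by_contra hne
      rw [not_nonempty_iff_eq_empty] at hne
      have h3 := hy2.2.1
      rw [hne, mk_eq_zero] at h3
      rw [← h3] at hα
      exact absurd aleph0_pos (not_lt.2 hα)
    · exact ⟨∅, fun h' => absurd h' not_nonempty_empty, fun h' => absurd h' h⟩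
  choose R hR1 hR2 using hR0
  by_contra hcon
  have hF : ∀ (b : Λ → Λ) (ζ : L), ∃ F : Λ → Λ, ∀ δ, (R b ζ δ).Nonempty → ∀ t < δ,
      ∃ v ∈ R b ζ δ, t < v ∧ v ∉ Cl F := by
    intro b ζ
    by_contra hno
    push Not at hno
    exact hcon ⟨R b ζ, hR1 b ζ, hno⟩
  choose F hF using hF
  have hFTc : ∀ b ζ c, #(FT Br b ζ c) ≤ α := fun b ζ c =>
    mk_tr_le _ _ α hα (fun x => mk_image_le.trans (hBr1 ζ x))
  -- the next club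
  have hN : ∀ (b : Λ → Λ) (ζ : L), ∃ N : Λ → Λ, (∀ x, F b ζ x ≤ N x) ∧
      (∀ x, ∃ c ∈ Cl b, x < c ∧ c ≤ N x) ∧
      ∀ t, ∀ y₀ ∈ FT Br b ζ t, ∀ y₁ ∈ FT Br b ζ t,
        #{u | u ∈ FT Br b ζ t ∧ y₀ ≤ u ∧ u ≤ y₁} < α → ∃ β ≤ N t, ∃ r₀, ∀ w, r₀ ≤ rk w →
          ∀ u ∈ FT Br b ζ t, y₀ ≤ u → u ≤ y₁ → f u w < f β w := by
    intro b ζ
    have h1 : ∀ t y₀ y₁ : Λ, ∃ β, #{u | u ∈ FT Br b ζ t ∧ y₀ ≤ u ∧ u ≤ y₁} < α →
        ∃ r₀, ∀ w, r₀ ≤ rk w → ∀ u ∈ FT Br b ζ t, y₀ ≤ u → u ≤ y₁ → f u w < f β w := by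
      intro t y₀ y₁
      by_cases h : #{u | u ∈ FT Br b ζ t ∧ y₀ ≤ u ∧ u ≤ y₁} < α
      · obtain ⟨β, r₀, h2⟩ := bound_small hθ rk y hy f hf1 hf3 _ h
        exact ⟨β, fun _ => ⟨r₀, fun w hw u hu1 hu2 hu3 => h2 w hw u ⟨hu1, hu2, hu3⟩⟩⟩
      · exact ⟨y₀, fun h' => absurd h' h⟩
    choose β hβ using h1
    have h2 : ∀ t, ∃ γ : Λ, ∀ p : FT Br b ζ t × FT Br b ζ t, β t p.1 p.2 < γ := by
      intro t
      refine exists_sup hΛ ?_ _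
      rw [mk_prod, lift_id]
      exact ((mul_le_mul' (hFTc b ζ t) (hFTc b ζ t)).trans (mul_eq_self hα).le).trans_lt
        (hαL.trans hLΛ)
    choose γ hγ using h2
    choose c hc1 hc2 using fun x : Λ => exists_cl hΛ b x
    refine ⟨fun x => max (F b ζ x) (max (c x) (γ x)), fun x => le_max_left _ _, fun x => ?_, ?_⟩
    · exact ⟨c x, hc2 x, hc1 x, (le_max_left _ _).trans (le_max_right _ _)⟩
    · intro t y₀ h0 y₁ h1 h3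
      refine ⟨β t y₀ y₁, ?_, hβ t y₀ y₁ h3⟩
      exact (hγ t (⟨y₀, h0⟩, ⟨y₁, h1⟩)).le.trans ((le_max_right _ _).trans (le_max_right _ _))
  choose N hN1 hN2 hN3 using hN
  -- the clubs
  obtain ⟨E, hE⟩ := exists_rec (D := L) (A := Λ → Λ)
    (fun ζ E s => ∀ ζ' < ζ, ∀ x, E ζ' x ≤ s x ∧ N (E ζ') ζ' x ≤ s x)
    (by
      intro ζ E E' s hEE h ζ' hζ' x
      rw [← hEE ζ' hζ']
      exact h ζ' hζ' x)
    (by
      intro ζ E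
      have hb : ∀ x : Λ, ∃ s : Λ, ∀ ζ' : Set.Iio ζ, max (E ζ' x) (N (E ζ') ζ' x) < s := fun x =>
        exists_sup hΛ ((hL.small ζ).trans hLΛ) _
      choose s hs using hb
      exact ⟨s, fun ζ' hζ' x => ⟨(le_max_left _ _).trans (hs x ⟨ζ', hζ'⟩).le,
        (le_max_right _ _).trans (hs x ⟨ζ', hζ'⟩).le⟩⟩)
  have hEmono : ∀ ζ' ζ, ζ' ≤ ζ → Cl (E ζ) ⊆ Cl (E ζ') := by
    intro ζ' ζ h
    rcases h.lt_or_eq with h | rfl
    · exact Cl_anti fun x => (hE ζ ζ' h x).1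
    · exact subset_rfl
  have hflmono : ∀ ζ' ζ, ζ' ≤ ζ → ∀ c, fl (E ζ) c ≤ fl (E ζ') c := by
    intro ζ' ζ h c
    exact le_fl (hEmono ζ' ζ h (fl_mem _ _)) (fl_le _ _)
  have hEN : ∀ ζ, ∃ ζ', ζ < ζ' ∧ Cl (E ζ') ⊆ Cl (N (E ζ) ζ) := by
    intro ζ
    obtain ⟨ζ', h⟩ := exists_gt' hL ζ
    exact ⟨ζ', h, Cl_anti fun x => (hE ζ' ζ h x).2⟩
  let S : Set Λ := {x | ∀ ζ, x ∈ Cl (E ζ)}
  have hSN : ∀ x ∈ S, ∀ ζ, x ∈ Cl (N (E ζ) ζ) := by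
    intro x hx ζ
    obtain ⟨ζ', -, h⟩ := hEN ζ
    exact h (hx ζ')
  have hSub : ∀ z, ∃ x ∈ S, z < x := by
    intro z
    choose B hB using fun x : Λ => exists_sup hΛ hLΛ (fun ζ => E ζ x)
    obtain ⟨x, h1, h2⟩ := exists_cl hΛ B z
    exact ⟨x, fun ζ => Cl_anti (fun y => (hB y ζ).le) h2, h1⟩
  obtain ⟨e₀, he₀, -⟩ := hSub hΛne.some
  -- `δ`
  have hδ0 : ∃ δ, α ≤ #{x | (x ∈ S ∧ e₀ ≤ x) ∧ x < δ} := by
    by_contra hno
    push Not at hno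
    have h1 : #{x | x ∈ S ∧ e₀ ≤ x} ≤ α := mk_le_of_small _ α (fun x _ => hno x)
    have h2 : Ub {x | x ∈ S ∧ e₀ ≤ x} := by
      intro z
      obtain ⟨x, h3, h4⟩ := hSub (max z e₀)
      exact ⟨x, ⟨h3, ((le_max_right _ _).trans_lt h4).le⟩, (le_max_left _ _).trans_lt h4⟩
    rw [ub_iff hΛ] at h2
    rw [h2] at h1
    exact absurd (hαL.trans hLΛ) (not_lt.2 h1)
  obtain ⟨δ, hδ1, hδ2⟩ := (wellFounded_lt (α := Λ)).has_min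
    {δ | α ≤ #{x | (x ∈ S ∧ e₀ ≤ x) ∧ x < δ}} hδ0
  have hδ3 : ∀ v < δ, #{x | (x ∈ S ∧ e₀ ≤ x) ∧ x < v} < α := fun v hv =>
    not_le.1 fun h => hδ2 v h hv
  let T : Set Λ := {x | x ∈ S ∧ e₀ ≤ x ∧ x < δ}
  have hTiio : ∀ v < δ, #{u | u ∈ T ∧ u < v} < α := by
    intro v hv
    refine (mk_le_mk_of_subset ?_).trans_lt (hδ3 v hv)
    rintro u ⟨⟨h1, h2, h3⟩, h4⟩
    exact ⟨⟨h1, h2⟩, h4⟩
  have hTiic : ∀ v < δ, #{u | u ∈ T ∧ u ≤ v} < α := by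
    intro v hv
    have h1 : {u | u ∈ T ∧ u ≤ v} ⊆ insert v {u | u ∈ T ∧ u < v} := by
      rintro u ⟨h1, h2⟩
      rcases h2.lt_or_eq with h3 | rfl
      · exact mem_insert_of_mem _ ⟨h1, h3⟩
      · exact mem_insert _ _
    refine (mk_le_mk_of_subset h1).trans_lt (mk_insert_le.trans_lt ?_)
    exact add_lt_of_lt hα (hTiio v hv) (one_lt_aleph0.trans_le hα)
  have hTα : #T = α := by
    apply le_antisymm
    · exact mk_le_of_small _ α (fun x hx => hTiio x hx.2.2)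
    · refine hδ1.trans (mk_le_mk_of_subset ?_)
      rintro u ⟨⟨h1, h2⟩, h3⟩
      exact ⟨h1, h2, h3⟩
  have hTub : ∀ v < δ, ∃ x ∈ T, v < x := by
    intro v hv
    by_contra hno
    push Not at hno
    have : #T ≤ #{u | u ∈ T ∧ u ≤ v} := mk_le_mk_of_subset fun u hu => ⟨hu, hno u hu⟩
    rw [hTα] at this
    exact absurd (hTiic v hv) (not_lt.2 this)
  have hTδ : ¬ CofGt δ α := by
    intro h
    obtain ⟨b, hb1, hb2⟩ := h T hTα.le (fun x hx => hx.2.2)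
    obtain ⟨x, hx1, hx2⟩ := hTub b hb1
    exact absurd (hb2 x hx1) (not_lt.2 hx2.le)
  have he₀δ : e₀ < δ := by
    by_contra hno
    rw [not_lt] at hno
    have : T = ∅ := by
      ext x
      simp only [mem_empty_iff_false, iff_false]
      rintro ⟨-, h1, h2⟩
      exact absurd (h1.trans_lt h2) (not_lt.2 hno)
    rw [this, mk_eq_zero] at hTα
    rw [← hTα] at hα
    exact absurd aleph0_pos (not_lt.2 hα)
  have he₀T : e₀ ∈ T := ⟨he₀, le_rfl, he₀δ⟩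
  -- Claim A
  have hA : ∀ x ∈ T, e₀ < x → ¬ CofGt x (succ α) := by
    intro x hx hex hcof
    obtain ⟨z, hz1, hz2⟩ := hcof {u | u ∈ T ∧ u < x} ((hTiio x hx.2.2).le.trans (le_succ _))
      (fun u hu => hu.2)
    have hstep : ∀ p : Set.Iio x, ∃ p' : Set.Iio x, ∀ ζ : L, ∃ c ∈ Cl (E ζ), p.1 < c ∧ c < p'.1 := by
      rintro ⟨p, hp⟩
      have h1 : ∀ ζ : L, ∃ c ∈ Cl (E ζ), p < c ∧ c < x := by
        intro ζ
        obtain ⟨c, h2, h3, h4⟩ := hN2 (E ζ) ζ p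
        exact ⟨c, h2, h3, h4.trans_lt (hSN x hx.1 ζ p hp)⟩
      choose c h2 h3 h4 using h1
      obtain ⟨p', h5, h6⟩ := hcof.fam (I := L) hLα.le c h4
      exact ⟨⟨p', h5⟩, fun ζ => ⟨c ζ, h2 ζ, h3 ζ, h6 ζ⟩⟩
    choose nx hnx using hstep
    let p : ℕ → Set.Iio x := fun n => Nat.rec ⟨z, hz1⟩ (fun _ q => nx q) n
    have hp : ∀ n ζ, ∃ c ∈ Cl (E ζ), (p n).1 < c ∧ c < (p (n + 1)).1 := fun n ζ => hnx (p n) ζ
    obtain ⟨b, hb1, hb2⟩ := hcof.fam (I := ℕ)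
      ((mk_nat).le.trans (hα.trans (le_succ _))) (fun n => (p n).1) (fun n => (p n).2)
    have hbd : ∀ u ∈ range (fun n => (p n).1), u ≤ b := by
      rintro _ ⟨n, rfl⟩
      exact (hb2 n).le
    have hple : ∀ n, (p n).1 ≤ lub (range fun n => (p n).1) := fun n => le_lub hbd ⟨n, rfl⟩
    have hlx : lub (range fun n => (p n).1) < x := (lub_le hbd).trans_lt hb1
    have hlS : lub (range fun n => (p n).1) ∈ S := by
      intro ζ u hu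
      obtain ⟨_, ⟨n, rfl⟩, hn⟩ := lt_of_lt_lub hu
      obtain ⟨c, h1, h2, h3⟩ := hp n ζ
      exact (h1 u (hn.trans h2)).trans (h3.trans_le (hple (n + 1)))
    have hzl : z < lub (range fun n => (p n).1) := by
      obtain ⟨c, -, h2, h3⟩ := hp 0 hLne.some
      exact (h2.trans h3).trans_le (hple 1)
    have hez : e₀ < z := hz2 e₀ ⟨he₀T, hex⟩
    exact absurd (hz2 _ ⟨⟨hlS, (hez.trans hzl).le, hlx.trans hx.2.2⟩, hlx⟩) (not_lt.2 hzl.le)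
  -- Claim B
  have hB : ∀ c : Λ, ∃ ζc : L, ∀ ζ, ζc ≤ ζ → fl (E ζ) c ∈ S := by
    intro c
    obtain ⟨_, ⟨ζc, rfl⟩, hmin⟩ := (wellFounded_lt (α := Λ)).has_min
      (range fun ζ : L => fl (E ζ) c) (range_nonempty _)
    refine ⟨ζc, fun ζ hζ ζ' => ?_⟩
    have h1 : fl (E ζ) c = fl (E (max ζ' ζ)) c := by
      apply le_antisymm
      · exact (hflmono _ _ hζ c).trans (not_lt.1 (hmin _ ⟨max ζ' ζ, rfl⟩))
      · exact hflmono _ _ (le_max_right _ _) c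
    rw [h1]
    exact hEmono _ _ (le_max_left _ _) (fl_mem _ _)
  choose ζc hζc using hB
  -- Claim C
  have hC0 : ∀ x : {x | (x ∈ T ∧ e₀ < x) ∨ x = δ}, ∃ (b : L → L) (η : L), ∀ ζ ∈ Cl b, η < ζ →
      (∀ c ∈ Br ζ x, ζc c ≤ ζ) ∧ ∀ e ∈ T, e < x → ∃ c ∈ Br ζ x, e ≤ c := by
    rintro ⟨x, hx⟩
    have h1 : ¬ CofGt x (succ α) := by
      rcases hx with ⟨h2, h3⟩ | h2
      · exact hA x h2 h3
      · rw [h2]
        exact fun h => hTδ (h.mono (le_succ _))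
    obtain ⟨b, η, h⟩ := hBr3 x h1 ζc {u | u ∈ T ∧ u < x}
      ((mk_le_mk_of_subset fun u hu => hu.1).trans hTα.le) (fun u hu => hu.2)
    exact ⟨b, η, fun ζ h2 h3 => ⟨(h ζ h2 h3).1, fun e h4 h5 => (h ζ h2 h3).2 e ⟨h4, h5⟩⟩⟩
  choose bC ηC hC using hC0
  have hTcard : #{x | (x ∈ T ∧ e₀ < x) ∨ x = δ} < #L := by
    refine lt_of_le_of_lt ?_ hαL
    have h1 : {x | (x ∈ T ∧ e₀ < x) ∨ x = δ} ⊆ insert δ T := by
      rintro x (h | rfl)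
      · exact mem_insert_of_mem _ h.1
      · exact mem_insert _ _
    refine (mk_le_mk_of_subset h1).trans (mk_insert_le.trans ?_)
    rw [hTα]
    exact (add_one_eq hα).le
  choose bb hbb using fun ξ : L => exists_sup hL hTcard (fun x => bC x ξ)
  obtain ⟨ηη, hηη⟩ := exists_sup hL hTcard ηC
  obtain ⟨ζ, hζ1, hζ2⟩ := exists_cl hL bb ηη
  have hC1 : ∀ x, ((x ∈ T ∧ e₀ < x) ∨ x = δ) →
      (∀ c ∈ Br ζ x, ζc c ≤ ζ) ∧ ∀ e ∈ T, e < x → ∃ c ∈ Br ζ x, e ≤ c := fun x hx =>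
    hC ⟨x, hx⟩ ζ (Cl_anti (fun ξ => (hbb ξ ⟨x, hx⟩).le) hζ2) ((hηη ⟨x, hx⟩).trans hζ1)
  have hC2 : ∀ x, ((x ∈ T ∧ e₀ < x) ∨ x = δ) → ∀ c ∈ Br ζ x, e₀ ≤ c → fl (E ζ) c ∈ T := by
    intro x hx c hc hec
    refine ⟨hζc c ζ ((hC1 x hx).1 c hc), le_fl (he₀ ζ) hec, ?_⟩
    refine ((fl_le _ _).trans_lt (hBr2 ζ x c hc)).trans_le ?_
    rcases hx with h | h
    · exact h.1.2.2.le
    · exact h.le
  -- Claim D
  have hfl : ∀ t ∈ S, fl (E ζ) t = t := fun t ht => le_antisymm (fl_le _ _) (le_fl (ht ζ) le_rfl)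
  have hD1 : ∀ t ∈ T, ∀ x ∈ FT Br (E ζ) ζ t, e₀ ≤ x → x ∈ T := by
    intro t ht x hx
    have hx' : Tr (fun x => fl (E ζ) '' Br ζ x) (fl (E ζ) t) x := hx
    clear hx
    induction hx' with
    | root =>
      intro _
      rw [hfl t ht.1]
      exact ht
    | step x y hx hy ih =>
      intro hey
      obtain ⟨c, hc, rfl⟩ := hy
      have h1 : e₀ ≤ c := hey.trans (fl_le _ _)
      have h2 : e₀ < x := h1.trans_lt (hBr2 ζ x c hc)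
      exact hC2 x (Or.inl ⟨ih h2.le, h2⟩) c hc h1
  have hD2 : ∀ t ∈ T, ∀ e ∈ T, e ≤ t → e ∈ FT Br (E ζ) ζ t := by
    intro t ht e he het
    obtain ⟨x, ⟨hx1, hx2⟩, hx3⟩ := (wellFounded_lt (α := Λ)).has_min
      {x | x ∈ FT Br (E ζ) ζ t ∧ e ≤ x} ⟨fl (E ζ) t, Tr.root, by rwa [hfl t ht.1]⟩
    have hxT : x ∈ T := hD1 t ht x hx1 (he.2.1.trans hx2)
    rcases hx2.lt_or_eq with h1 | rfl
    · exfalso
      have h0 : e₀ < x := he.2.1.trans_lt h1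
      obtain ⟨c, hc1, hc2⟩ := (hC1 x (Or.inl ⟨hxT, h0⟩)).2 e he h1
      refine hx3 (fl (E ζ) c) ⟨Tr.step x _ hx1 ⟨c, hc1, rfl⟩, le_fl (he.1 ζ) hc2⟩ ?_
      exact (fl_le _ _).trans_lt (hBr2 ζ x c hc1)
    · exact hx1
  have hVT : VV (E ζ) ζ δ ∩ Set.Ici e₀ = T := by
    have hft : ∀ c, fl (E ζ) c ∈ T → FT Br (E ζ) ζ c = FT Br (E ζ) ζ (fl (E ζ) c) := by
      intro c hc
      unfold FT
      rw [hfl _ hc.1]
    ext x
    constructor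
    · rintro ⟨⟨c, hc, hx⟩, hex⟩
      have h1 : e₀ ≤ c := (le_trans hex (FT_le hBr2 hx)).trans (fl_le _ _)
      have h2 := hC2 δ (Or.inr rfl) c hc h1
      rw [hft c h2] at hx
      exact hD1 _ h2 x hx hex
    · intro hx
      obtain ⟨c, hc1, hc2⟩ := (hC1 δ (Or.inr rfl)).2 x hx hx.2.2
      have h1 : e₀ ≤ c := hx.2.1.trans hc2
      have h2 := hC2 δ (Or.inr rfl) c hc1 h1
      refine ⟨⟨c, hc1, ?_⟩, hx.2.1⟩
      rw [hft c h2]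
      exact hD2 _ h2 x hx (le_fl (hx.1 ζ) hc2)
  have hTgood : FinR α rk f δ T := by
    refine ⟨fun v hv => hv.2.2, hTα, hTiio, ?_⟩
    intro v hv v' hv' hvv
    have h0 : {u | u ∈ FT Br (E ζ) ζ v ∧ e₀ ≤ u ∧ u ≤ v} ⊆ {u | u ∈ T ∧ u ≤ v} :=
      fun u hu => ⟨hD1 v hv u hu.1 hu.2.1, hu.2.2⟩
    obtain ⟨β, hβ, r₀, hr₀⟩ := hN3 (E ζ) ζ v e₀ (hD2 v hv e₀ he₀T hv.2.1) v (hD2 v hv v hv le_rfl)
      ((mk_le_mk_of_subset h0).trans_lt (hTiic v hv.2.2))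
    have h1 : β < v' := hβ.trans_lt (hSN v' hv'.1 ζ v hvv)
    exact ⟨β, h1, r₀, fun w hw u hu huv => hr₀ w hw u (hD2 v hv u hu huv) hu.2.1 huv⟩
  obtain ⟨hne, y', hy1, hy2⟩ := hR2 (E ζ) ζ δ ⟨e₀, he₀δ, by rw [hVT]; exact hTgood⟩
  obtain ⟨v, hv1, hv2, hv3⟩ := hF (E ζ) ζ δ hne (max y' e₀) (max_lt hy1 he₀δ)
  apply hv3
  rw [hy2] at hv1
  have hvT : v ∈ T := by
    rw [← hVT]
    exact ⟨hv1.1, ((le_max_right _ _).trans_lt hv2).le⟩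
  exact Cl_anti (hN1 (E ζ) ζ) (hSN v hvT.1 ζ)

end Pool.Agent.LibPcf
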