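import Pool.Agent.LibPcf.Uni

/-! [GS76] ND: universal sequences are cofinal on sets without large bounding number. -/

set_option autoImplicit false

namespace Pool.Agent.LibPcf

open Cardinal Set Order Filter
open Pool.Agent.LibGP76 Pool.Agent.LibGPR

variable {M L K W : Type} [LinearOrder M] [LinearOrder L] [LinearOrder K] [WellFoundedLT M]
  [WellFoundedLT L] [WellFoundedLT K]

/-- The set `T` contains points of arbitrarily large rank. -/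
def UbR (rk : W → M) (T : Set W) : Prop := ∀ r, ∃ w ∈ T, r ≤ rk w

/-- The filter of the sets that contain all points of large rank. -/
def cofR [Nonempty M] (rk : W → M) : Filter W where
  sets := {S | ∃ r₀, ∀ w, r₀ ≤ rk w → w ∈ S}
  univ_sets := ⟨Classical.arbitrary M, fun _ _ => mem_univ _⟩
  sets_of_superset := by
    rintro S T ⟨r₀, h⟩ hST
    exact ⟨r₀, fun r hr => hST (h r hr)⟩
  inter_sets := by
    rintro S T ⟨r₀, h⟩ ⟨r₁, h'⟩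
    exact ⟨max r₀ r₁, fun r hr => ⟨h r ((le_max_left _ _).trans hr),
      h' r ((le_max_right _ _).trans hr)⟩⟩

omit [WellFoundedLT M] in
theorem ev_cofR [Nonempty M] {rk : W → M} {P : W → Prop} :
    (∀ᶠ w in cofR rk, P w) ↔ ∃ r₀, ∀ w, r₀ ≤ rk w → P w :=
  Iff.rfl

/-- The sequence `f` of the note, and ND. -/
theorem exists_f (hM : RegK M) {α : Cardinal.{0}} {θ : M → Cardinal.{0}} (hθ : Thetas M α θ)
    (hL : RegK L) (hLα : #L = succ α) (rk : W → M) (y : W → K)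
    (hy : ∀ w, CofGt (y w) (θ (rk w))) (Kf : L → M → Set W)
    (hK1 : ∀ ξ t, #(Kf ξ t) ≤ θ t) (hK2 : ∀ ξ t, ∀ w ∈ Kf ξ t, t < rk w) :
    ∃ f : L → W → K, (∀ ξ w, f ξ w < y w) ∧
      (∀ ξ ξ', ξ < ξ' → ∃ r₀, ∀ w, r₀ ≤ rk w → f ξ w < f ξ' w) ∧
      ∀ ζ t, ∀ T ⊆ Kf ζ t, #T ≤ #M → (∀ T' ⊆ T, UbR rk T' → ¬ BB L rk y T') →
        ∀ ι : W → K, (∀ w, ι w < y w) → ∃ ξ r₀, ∀ w ∈ T, r₀ ≤ rk w → ι w < f ξ w := by
  classical
  have hMne := nonempty_of_regK hM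
  have hLne := nonempty_of_regK hL
  by_cases hWne : Nonempty W
  swap
  · haveI := not_nonempty_iff.1 hWne
    refine ⟨fun _ w => isEmptyElim w, fun _ w => isEmptyElim w, fun ξ ξ' _ => ?_,
      fun _ _ T _ _ _ _ _ => ?_⟩
    · exact ⟨hMne.some, fun w => isEmptyElim w⟩
    · exact ⟨hLne.some, hMne.some, fun w => isEmptyElim w⟩
  haveI : Nonempty K := ⟨y hWne.some⟩
  have hIio : ∀ ξ : L, #(Set.Iio ξ) ≤ α := fun ξ => by
    have := hL.small ξ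
    rw [hLα] at this
    exact lt_succ_iff.1 this
  choose Δ hΔ1 hΔ2 hΔ3 hΔ4 using fun ξ : L => exists_filt hθ (Set.Iio ξ) (hIio ξ)
  -- universal sequences
  have huni : ∀ (ξ : L) (t : M), ∃ h : L → W → K, (∀ ξ w, h ξ w < y w) ∧
      (∀ ξ ξ', ξ < ξ' → ∃ r₀, ∀ w, r₀ ≤ rk w → h ξ w < h ξ' w) ∧
      ∀ T ⊆ Kf ξ t, ¬ BB L rk y T → ¬ BddOn rk y T h := by
    intro ξ t
    have h1 : ∀ r, t < r → succ (θ t) ≤ θ r := fun r hr =>
      ((le_succ _).trans <| (le_succ _).trans <| (le_succ _).trans <|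
        (le_succ _)).trans (hθ.gap t r hr)
    refine uni hθ hL hLα rk y hy (Kf ξ t) (θ t) (hθ.inf t) (hK1 ξ t) ?_
      (fun w hw => h1 _ (hK2 ξ t w hw))
    obtain ⟨r, hr⟩ := exists_gt' hM t
    exact (h1 r hr).trans (hθ.lt r).le
  choose h hh1 hh2 hh3 using huni
  -- the well-orders `C`, `D`
  have hMω : ℵ₀ ≤ #M := hM.unc.le
  obtain ⟨C, iC1, iC2, hC, hCc⟩ := exists_regK_succ #M hMω
  obtain ⟨D, iD1, iD2, hD, hDc⟩ := exists_regK_succ (succ (succ #M))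
    (hMω.trans ((le_succ _).trans (le_succ _)))
  have hDθ : ∀ r, #D ≤ θ r := by
    intro r
    rw [hDc]
    exact (le_succ _).trans (hθ.base r)
  have hDL : #D < #L := by
    rw [hLα]
    exact lt_succ_iff.2 ((hDθ hMne.some).trans (hθ.lt _).le)
  have he0 : ∀ ξ : L, ∃ e : D → L, (∃ σ : D → L, Lad σ ξ) → CLad e ξ := by
    intro ξ
    by_cases h : ∃ σ : D → L, Lad σ ξ
    · obtain ⟨σ, hσ⟩ := h
      obtain ⟨e, he⟩ := exists_clad hD ξ σ hσ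
      exact ⟨e, fun _ => he⟩
    · exact ⟨fun _ => ξ, fun h' => absurd h' h⟩
  choose e he using he0
  obtain ⟨f, hf1, hf2, hf3⟩ := exists_dem (L := L) (W := W) (K := K) (fun w => θ (rk w)) y hy
    (fun ξ w => Δ ξ (rk w) ∪ {β | β < ξ ∧ β ∈ range (e ξ)})
    (by
      intro ξ w
      refine (mk_union_le _ _).trans ?_
      refine (add_le_add (hΔ2 _ _) ((mk_le_mk_of_subset (fun β hβ => hβ.2)).trans
        (mk_range_le.trans (hDθ (rk w))))).trans ?_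
      exact (add_eq_self (hθ.inf _)).le)
    (by
      rintro ξ w β (hβ | hβ)
      · exact hΔ3 ξ _ hβ
      · exact hβ.1)
    (fun ξ w => range fun p : Δ ξ (rk w) × M => h p.1 p.2 ξ w)
    (by
      intro ξ w
      refine mk_range_le.trans ?_
      rw [mk_prod, lift_id, lift_id]
      refine (mul_le_mul' (hΔ2 _ _) (hθ.mkM (rk w))).trans ?_
      exact (mul_eq_self (hθ.inf _)).le)
    (by
      rintro ξ w _ ⟨p, rfl⟩
      exact hh1 _ _ _ _)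
  have hinc : ∀ ξ ξ', ξ < ξ' → ∃ r₀, ∀ w, r₀ ≤ rk w → f ξ w < f ξ' w := by
    intro ξ ξ' hξ
    obtain ⟨r₀, hr₀⟩ := hΔ4 ξ' ξ hξ
    exact ⟨r₀, fun w hw => hf2 ξ' w ξ (Or.inl (hΔ1 ξ' r₀ _ hw hr₀))⟩
  have hdom : ∀ ζ t ξ, ζ < ξ → ∃ r₀, ∀ w, r₀ ≤ rk w → h ζ t ξ w < f ξ w := by
    intro ζ t ξ hξ
    obtain ⟨r₀, hr₀⟩ := hΔ4 ξ ζ hξ
    exact ⟨r₀, fun w hw => hf3 ξ w _ ⟨(⟨ζ, hΔ1 ξ r₀ _ hw hr₀⟩, t), rfl⟩⟩
  have hunb : ∀ ζ t, ∀ T ⊆ Kf ζ t, ¬ BB L rk y T → ¬ BddOn rk y T f := by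
    intro ζ t T hT hB hbd
    obtain ⟨b, hb1, hb2⟩ := hbd
    refine hh3 ζ t T hT hB ⟨b, hb1, fun ξ => ?_⟩
    obtain ⟨ξ', hξ'⟩ := exists_gt' hL (max ξ ζ)
    obtain ⟨r₀, hr₀⟩ := hh2 ζ t ξ ξ' ((le_max_left _ _).trans_lt hξ')
    obtain ⟨r₁, hr₁⟩ := hdom ζ t ξ' ((le_max_right _ _).trans_lt hξ')
    obtain ⟨r₂, hr₂⟩ := hb2 ξ'
    refine ⟨max r₀ (max r₁ r₂), fun w hw hr => ?_⟩
    have k0 := hr₀ w ((le_max_left _ _).trans hr)
    have k1 := hr₁ w (((le_max_left _ _).trans (le_max_right _ _)).trans hr)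
    have k2 := hr₂ w hw (((le_max_right _ _).trans (le_max_right _ _)).trans hr)
    exact (k0.trans k1).le.trans k2
  refine ⟨f, hf1, hinc, fun ζ t T hT hTM hTB ι hι => ?_⟩
  by_contra hcon
  have hU : ∀ ξ, UbR rk {w | w ∈ T ∧ f ξ w ≤ ι w} := by
    intro ξ r
    by_contra hno
    refine hcon ⟨ξ, r, fun w hw hr => ?_⟩
    by_contra h1
    exact hno ⟨w, ⟨hw, not_lt.1 h1⟩, hr⟩
  by_cases hA : ∃ ξ₀, ∀ ξ, ξ₀ < ξ → ¬ UbR rk {w | w ∈ T ∧ f ξ₀ w ≤ ι w ∧ ¬ f ξ w ≤ ι w}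
  · obtain ⟨ξ₀, hξ₀⟩ := hA
    refine hunb ζ t {w | w ∈ T ∧ f ξ₀ w ≤ ι w} (fun w hw => hT hw.1)
      (hTB _ (fun w hw => hw.1) (hU ξ₀)) ⟨ι, hι, fun ξ => ?_⟩
    obtain ⟨ξ', hξ'⟩ := exists_gt' hL (max ξ ξ₀)
    have h1 := hξ₀ ξ' ((le_max_right _ _).trans_lt hξ')
    unfold UbR at h1
    push Not at h1
    obtain ⟨r₀, hr₀⟩ := h1
    obtain ⟨r₁, hr₁⟩ := hinc ξ ξ' ((le_max_left _ _).trans_lt hξ')
    refine ⟨max r₀ r₁, fun w hw hr => ?_⟩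
    have k1 := hr₁ w ((le_max_right _ _).trans hr)
    by_contra hno
    have k2 : ι w < f ξ' w := not_le.1 fun h' => hno (k1.le.trans h')
    exact absurd ((le_max_left _ _).trans hr) (not_le.2 (hr₀ w ⟨hw.1, hw.2, k2⟩))
  · push Not at hA
    choose nx hnx1 hnx2 using hA
    obtain ⟨η, g, hη1, hη2, hg1, hg2, hg3⟩ := str hC hD
      (by rw [hCc, hDc]; exact lt_succ _) hL hDL (cofR rk) Set.univ univ_mem f
      (fun a b hab => hinc a b hab)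
      (by
        intro δ hδ
        refine ⟨e δ, he δ hδ, fun i w _ => (hf2 δ w _ (Or.inr ?_)).le⟩
        exact ⟨(he δ hδ).1.2.1 i, ⟨i, rfl⟩⟩)
      (Cl nx) (fun ξ => by
        obtain ⟨c, h1, h2⟩ := exists_cl hL nx ξ
        exact ⟨c, h2, h1⟩)
    have hst : ∀ w : T, ∃ i, g i w ≤ ι w → ∀ j, g j w ≤ ι w := by
      intro w
      by_cases hw : ∃ i, ¬ g i w ≤ ι w
      · obtain ⟨i, hi⟩ := hw
        exact ⟨i, fun h' => absurd h' hi⟩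
      · push Not at hw
        exact ⟨(nonempty_of_regK hC).some, fun _ => hw⟩
    choose i hi using hst
    obtain ⟨i₀, hi₀⟩ := exists_sup hC (hTM.trans_lt (by rw [hCc]; exact lt_succ _)) i
    obtain ⟨i₁, hi₁⟩ := exists_gt' hC i₀
    obtain ⟨i₂, hi₂⟩ := exists_gt' hC i₁
    -- `U_{η i₀} \ U_{η i₁}` is unbounded
    have h1 : nx (η i₀) < η i₁ := hη1 i₁ _ (hη2 _ _ hi₁)
    obtain ⟨r₀, hr₀⟩ := hinc _ _ h1
    obtain ⟨r₁, hr₁⟩ := ev_cofR.1 (hg2 i₀)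
    obtain ⟨r₂, hr₂⟩ := ev_cofR.1 (hg3 i₁ i₂ hi₂)
    obtain ⟨w, ⟨hwT, hw1, hw2⟩, hw3⟩ := hnx2 (η i₀) (max r₀ (max r₁ r₂))
    have k0 := hr₀ w ((le_max_left _ _).trans hw3)
    have k1 := hr₁ w (((le_max_left _ _).trans (le_max_right _ _)).trans hw3)
    have k2 := hr₂ w (((le_max_right _ _).trans (le_max_right _ _)).trans hw3)
    have k3 : g (i ⟨w, hwT⟩) w ≤ ι w :=
      (hg1 _ _ (hi₀ ⟨w, hwT⟩).le w (mem_univ _)).trans (k1.trans hw1)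
    have k4 := hi ⟨w, hwT⟩ k3 i₂
    exact absurd (k0.trans (k2.trans_le k4)) (not_lt.2 hw2.le)

end Pool.Agent.LibPcf
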