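import Pool.Agent.LibGPR.Guess
import Pool.Agent.LibBV24.Tower

/-! [GS76] Recursion and least upper bounds in well-orders. -/

set_option autoImplicit false

namespace Pool.Agent.LibPcf

open Cardinal Set Order
open Pool.Agent.LibGP76 Pool.Agent.LibGPR

universe u v

/-- Recursive construction along a well-order. -/
theorem exists_rec {D : Type u} [LinearOrder D] [WellFoundedLT D] {A : Type v} [Nonempty A]
    (P : D → (D → A) → A → Prop)
    (hP : ∀ i x y s, (∀ j < i, x j = y j) → P i x s → P i y s)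
    (hex : ∀ i x, ∃ s, P i x s) : ∃ x : D → A, ∀ i, P i x (x i) := by
  classical
  choose F hF using hex
  let G : ∀ i, (∀ j, j < i → A) → A := fun i rec =>
    F i (fun j => if h : j < i then rec j h else Classical.arbitrary A)
  let x : D → A := wellFounded_lt.fix G
  have hx : ∀ i, x i = G i (fun j _ => x j) := fun i => wellFounded_lt.fix_eq _ i
  refine ⟨x, fun i => ?_⟩
  have h1 := hF i (fun j => if _ : j < i then x j else Classical.arbitrary A)
  have h2 : F i (fun j => if _ : j < i then x j else Classical.arbitrary A) = x i := by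
    rw [hx i]
  rw [h2] at h1
  refine hP i _ _ _ (fun j hj => ?_) h1
  exact dif_pos hj

section lub

variable {K : Type u} [LinearOrder K] [WellFoundedLT K]

/-- A least upper bound, if there is an upper bound. -/
theorem exists_lub [Nonempty K] (A : Set K) :
    ∃ b, (∃ c, ∀ x ∈ A, x ≤ c) → (∀ x ∈ A, x ≤ b) ∧ ∀ c, (∀ x ∈ A, x ≤ c) → b ≤ c := by
  by_cases h : ∃ c, ∀ x ∈ A, x ≤ c
  · obtain ⟨b, hb, hmin⟩ := wellFounded_lt.has_min {c | ∀ x ∈ A, x ≤ c} h
    exact ⟨b, fun _ => ⟨hb, fun c hc => not_lt.1 (hmin c hc)⟩⟩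
  · exact ⟨Classical.arbitrary K, fun h' => absurd h' h⟩

/-- The least upper bound of `A` (junk if `A` is unbounded). -/
noncomputable def lub [Nonempty K] (A : Set K) : K := (exists_lub A).choose

theorem le_lub [Nonempty K] {A : Set K} {c : K} (hc : ∀ x ∈ A, x ≤ c) {x : K} (hx : x ∈ A) :
    x ≤ lub A := ((exists_lub A).choose_spec ⟨c, hc⟩).1 x hx

theorem lub_le [Nonempty K] {A : Set K} {c : K} (hc : ∀ x ∈ A, x ≤ c) : lub A ≤ c :=
  ((exists_lub A).choose_spec ⟨c, hc⟩).2 c hc

theorem lt_of_lt_lub [Nonempty K] {A : Set K} {y : K} (hy : y < lub A) :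
    ∃ x ∈ A, y < x := by
  by_contra hcon
  push Not at hcon
  exact absurd (lub_le hcon) (not_le.2 hy)

theorem lub_mono [Nonempty K] {A B : Set K} (hAB : A ⊆ B) {c : K} (hc : ∀ x ∈ B, x ≤ c) :
    lub A ≤ lub B := lub_le fun _ hx => le_lub hc (hAB hx)

end lub

end Pool.Agent.LibPcf
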