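import Pool.Agent.LibPcf.Rec

/-! [GS76] STR: strongly increasing subsequences. -/

set_option autoImplicit false

namespace Pool.Agent.LibPcf

open Cardinal Set Order Filter
open Pool.Agent.LibGP76 Pool.Agent.LibGPR

universe u

/-- `e` is a strictly increasing continuous cofinal sequence in `δ`. -/
def CLad {D L : Type u} [LinearOrder D] [LinearOrder L] (e : D → L) (δ : L) : Prop :=
  Lad e δ ∧ ∀ i, (∃ j, j < i) → (∀ j < i, ∃ j', j < j' ∧ j' < i) → ∀ y < e i, ∃ j < i, y < e j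

variable {C D L : Type} [LinearOrder C] [LinearOrder D] [LinearOrder L] [WellFoundedLT C]
  [WellFoundedLT D] [WellFoundedLT L]

theorem str (hC : RegK C) (hD : RegK D) (hCD : succ #C < #D) (hL : RegK L) (hDL : #D < #L)
    {W K : Type} [LinearOrder K] [WellFoundedLT K] [Nonempty K] (F : Filter W)
    (W₀ : Set W) (hW₀ : W₀ ∈ F)
    (g : L → W → K) (hg : ∀ a b, a < b → ∀ᶠ w in F, g a w < g b w)
    (hE : ∀ δ : L, (∃ σ : D → L, Lad σ δ) → ∃ e : D → L, CLad e δ ∧
      ∀ i, ∀ w ∈ W₀, g (e i) w ≤ g δ w)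
    (S : Set L) (hS : ∀ ξ, ∃ s ∈ S, ξ < s) :
    ∃ (η : C → L) (h : C → W → K), (∀ i, η i ∈ S) ∧ (∀ i j, i < j → η i < η j) ∧
      (∀ i j, i ≤ j → ∀ w ∈ W₀, h i w ≤ h j w) ∧ (∀ i, ∀ᶠ w in F, h i w ≤ g (η i) w) ∧
      (∀ i j, i < j → ∀ᶠ w in F, g (η i) w < h j w) := by
  classical
  have hLne := nonempty_of_regK hL
  have hDne := nonempty_of_regK hD
  obtain ⟨c, hc⟩ := club_guess hC hD hCD
  let Xi : (D → L) → D → L := fun x i => lub {y | ∃ j < i, y = x j}
  let H : (D → L) → D → D → W → K := fun x i a w =>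
    lub {y | ∃ j : C, c a j ≤ i ∧ (∃ k, k < c a j) ∧ y = g (Xi x (c a j)) w}
  have hXi : ∀ (x y : D → L) i, (∀ j < i, x j = y j) → Xi x i = Xi y i := by
    intro x y i hxy
    have : {z | ∃ j < i, z = x j} = {z | ∃ j < i, z = y j} := by
      ext z
      constructor
      · rintro ⟨j, hj, rfl⟩; exact ⟨j, hj, hxy j hj⟩
      · rintro ⟨j, hj, rfl⟩; exact ⟨j, hj, (hxy j hj).symm⟩
    show lub _ = lub _
    rw [this]
  have hH : ∀ (x y : D → L) i a w, (∀ j < i, x j = y j) → H x i a w = H y i a w := by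
    intro x y i a w hxy
    have : {z | ∃ j : C, c a j ≤ i ∧ (∃ k, k < c a j) ∧ z = g (Xi x (c a j)) w} =
        {z | ∃ j : C, c a j ≤ i ∧ (∃ k, k < c a j) ∧ z = g (Xi y (c a j)) w} := by
      ext z
      constructor
      · rintro ⟨j, hj, hk, rfl⟩
        exact ⟨j, hj, hk, by rw [hXi x y _ fun j' hj' => hxy j' (hj'.trans_le hj)]⟩
      · rintro ⟨j, hj, hk, rfl⟩
        exact ⟨j, hj, hk, by rw [hXi x y _ fun j' hj' => hxy j' (hj'.trans_le hj)]⟩
    show lub _ = lub _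
    rw [this]
  have hgle : ∀ a b, a ≤ b → ∀ᶠ w in F, g a w ≤ g b w := by
    intro a b hab
    rcases hab.lt_or_eq with h | rfl
    · exact (hg a b h).mono fun w hw => hw.le
    · exact Eventually.of_forall fun w => le_rfl
  obtain ⟨x, hx⟩ := exists_rec
    (fun (i : D) (x : D → L) (s : L) => s ∈ S ∧ Xi x i < s ∧ ∀ a,
      (∃ η, ∀ᶠ w in F, H x i a w ≤ g η w) → ∀ᶠ w in F, H x i a w ≤ g s w)
    (by
      rintro i x y s hxy ⟨h1, h2, h3⟩
      refine ⟨h1, ?_, fun a => ?_⟩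
      · rw [← hXi x y i hxy]
        exact h2
      · have := h3 a
        simp only [hH x y i a _ hxy] at this
        exact this)
    (by
      intro i x
      have hη : ∀ a : D, ∃ η : L, (∃ η, ∀ᶠ w in F, H x i a w ≤ g η w) →
          ∀ᶠ w in F, H x i a w ≤ g η w := by
        intro a
        by_cases h : ∃ η, ∀ᶠ w in F, H x i a w ≤ g η w
        · obtain ⟨η, h⟩ := h
          exact ⟨η, fun _ => h⟩
        · exact ⟨hLne.some, fun h' => absurd h' h⟩
      choose η hη using hη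
      obtain ⟨β, hβ⟩ := exists_sup hL hDL η
      obtain ⟨s, hs, hs2⟩ := hS (max β (Xi x i))
      refine ⟨s, hs, (le_max_right _ _).trans_lt hs2, fun a ha => ?_⟩
      filter_upwards [hη a ha, hgle (η a) s ((hβ a).le.trans ((le_max_left _ _).trans hs2.le))]
        with w h1 h2
      exact h1.trans h2)
  -- basic facts on `x`
  obtain ⟨B, hB⟩ := exists_sup hL hDL x
  have hXle : ∀ i, ∀ j < i, x j ≤ Xi x i := fun i j hj =>
    le_lub (c := B) (by rintro _ ⟨j, _, rfl⟩; exact (hB j).le) ⟨j, hj, rfl⟩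
  have hXmono : ∀ i j, i < j → Xi x i < Xi x j := fun i j hij =>
    (hx i).2.1.trans_le (hXle j i hij)
  set δ : L := lub (range x) with hδ
  have hxδ : ∀ i, x i ≤ δ := fun i =>
    le_lub (c := B) (by rintro _ ⟨j, rfl⟩; exact (hB j).le) ⟨i, rfl⟩
  have hLad : Lad (Xi x) δ := by
    refine ⟨hXmono, fun i => (hx i).2.1.trans_le (hxδ i), fun ν hν => ?_⟩
    obtain ⟨_, ⟨i, rfl⟩, hi⟩ := lt_of_lt_lub hν
    obtain ⟨i', hi'⟩ := exists_gt' hD i
    exact ⟨i', hi.trans_le (hXle i' i hi')⟩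
  obtain ⟨e, ⟨he1, he2⟩, he3⟩ := hE δ ⟨_, hLad⟩
  -- the points where `Xi x` and `e` agree
  choose u hu using fun j : D => he1.2.2 (Xi x j) (hLad.2.1 j)
  choose v hv using fun j : D => hLad.2.2 (e j) (he1.2.1 j)
  choose t ht using fun j : D => exists_gt' hD j
  let b : D → D := fun j => max (t j) (max (u j) (v j))
  have emono : ∀ i j, i ≤ j → e i ≤ e j := fun i j hij => by
    rcases hij.lt_or_eq with h | rfl
    · exact (he1.1 i j h).le
    · exact le_rfl
  have Xmono : ∀ i j, i ≤ j → Xi x i ≤ Xi x j := fun i j hij => by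
    rcases hij.lt_or_eq with h | rfl
    · exact (hXmono i j h).le
    · exact le_rfl
  have hagree : ∀ i ∈ Cl b, (∃ k, k < i) → Xi x i = e i := by
    intro i hi hk
    have hlim : ∀ j < i, ∃ j', j < j' ∧ j' < i := fun j hj =>
      ⟨b j, (ht j).trans_le (le_max_left _ _), hi j hj⟩
    refine le_antisymm ?_ ?_
    · by_contra hcon
      rw [not_le] at hcon
      obtain ⟨_, ⟨j, hj, rfl⟩, hj2⟩ := lt_of_lt_lub hcon
      obtain ⟨j', hj', hj'i⟩ := hlim j hj
      have h1 : e i < Xi x j' := hj2.trans_le (hXle j' j hj')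
      have h2 : Xi x j' < e (u j') := hu j'
      have h3 : e (u j') ≤ e i := emono _ _
        (((le_max_left _ _).trans (le_max_right _ _)).trans (hi j' hj'i).le)
      exact absurd (h1.trans (h2.trans_le h3)) (lt_irrefl _)
    · by_contra hcon
      rw [not_le] at hcon
      obtain ⟨j, hj, hj2⟩ := he2 i hk hlim _ hcon
      have h1 : e j < Xi x (v j) := hv j
      have h2 : Xi x (v j) ≤ Xi x i := Xmono _ _
        (((le_max_right _ _).trans (le_max_right _ _)).trans (hi j hj).le)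
      exact absurd (hj2.trans (h1.trans_le h2)) (lt_irrefl _)
  obtain ⟨a, ⟨ha1, ha2, ha3⟩, ha4⟩ := hc b
  have hbd : ∀ i, ∀ w ∈ W₀, ∀ y ∈ {y | ∃ j : C, c a j ≤ i ∧ (∃ k, k < c a j) ∧
      y = g (Xi x (c a j)) w}, y ≤ g δ w := by
    rintro i w hw _ ⟨j, hj, hk, rfl⟩
    rw [hagree _ (ha4 j) hk]
    exact he3 _ w hw
  have hηmono : ∀ i j, i < j → x (c a i) < x (c a j) := fun i j hij =>
    (hXle _ _ (ha1 i j hij)).trans_lt (hx (c a j)).2.1
  refine ⟨fun i => x (c a i), fun i w => H x (c a i) a w, fun i => (hx _).1, hηmono, ?_, ?_, ?_⟩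
  · intro i j hij w hw
    refine lub_mono ?_ (hbd _ w hw)
    rintro _ ⟨k, hk, hk2, rfl⟩
    refine ⟨k, hk.trans ?_, hk2, rfl⟩
    rcases hij.lt_or_eq with h | rfl
    · exact (ha1 i j h).le
    · exact le_rfl
  · intro i
    refine (hx (c a i)).2.2 a ⟨δ, ?_⟩
    filter_upwards [hW₀] with w hw
    exact lub_le (hbd _ w hw)
  · intro i j hij
    have hlt : c a i < c a j := ha1 i j hij
    have hbj : b (c a i) < c a j := ha4 j _ hlt
    have h1 : c a i < b (c a i) := (ht _).trans_le (le_max_left _ _)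
    have h2 : x (c a i) < Xi x (c a j) :=
      ((hXle _ _ h1).trans_lt (hx (b (c a i))).2.1).trans_le (hXle _ _ hbj)
    filter_upwards [hg _ _ h2, hW₀] with w hw hw0
    exact hw.trans_le (le_lub (hbd (c a j) w hw0) ⟨j, le_rfl, ⟨_, hlt⟩, rfl⟩)

end Pool.Agent.LibPcf
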