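import Pool.Agent.LibPcf.Base

/-! [GS76] T+: a sequence of length `α⁺` in `∏ θ r ⁺` that eventually dominates modulo a
nonstationary set. -/

set_option autoImplicit false

namespace Pool.Agent.LibPcf

open Cardinal Set Order Filter
open Pool.Agent.LibGP76 Pool.Agent.LibGPR

variable {M L K : Type} [LinearOrder M] [LinearOrder L] [LinearOrder K] [WellFoundedLT M]
  [WellFoundedLT L] [WellFoundedLT K]

/-- The filter of the sets with bounded complement. -/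
def cof (M : Type) [LinearOrder M] [Nonempty M] : Filter M where
  sets := {S | ∃ r₀, ∀ r, r₀ ≤ r → r ∈ S}
  univ_sets := ⟨Classical.arbitrary M, fun _ _ => mem_univ _⟩
  sets_of_superset := by
    rintro S T ⟨r₀, h⟩ hST
    exact ⟨r₀, fun r hr => hST (h r hr)⟩
  inter_sets := by
    rintro S T ⟨r₀, h⟩ ⟨r₁, h'⟩
    exact ⟨max r₀ r₁, fun r hr => ⟨h r ((le_max_left _ _).trans hr),
      h' r ((le_max_right _ _).trans hr)⟩⟩

omit [WellFoundedLT M] in
theorem ev_cof [Nonempty M] {P : M → Prop} : (∀ᶠ r in cof M, P r) ↔ ∃ r₀, ∀ r, r₀ ≤ r → P r :=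
  Iff.rfl

/-- Every ladder can be made continuous. -/
theorem exists_clad {D : Type} [LinearOrder D] (hD : RegK D) (δ : L)
    (σ : D → L) (hσ : Lad σ δ) : ∃ e : D → L, CLad e δ := by
  classical
  haveI := nonempty_of_regK hD
  haveI : Nonempty L := ⟨δ⟩
  let e : D → L := fun i => if Lim i then lub {y | ∃ j < i, y = σ j} else σ i
  have hbd : ∀ i, ∀ y ∈ {y | ∃ j < i, y = σ j}, y ≤ σ i := by
    rintro i _ ⟨j, hj, rfl⟩
    exact (hσ.1 j i hj).le
  have he1 : ∀ i, e i ≤ σ i := by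
    intro i
    by_cases h : Lim i
    · simp only [e, if_pos h]
      exact lub_le (hbd i)
    · simp only [e, if_neg h]
      exact le_rfl
  have he2 : ∀ i j, i < j → σ i < e j := by
    intro i j hij
    by_cases h : Lim j
    · simp only [e, if_pos h]
      obtain ⟨j', h1, h2⟩ := h.2 i hij
      exact (hσ.1 i j' h1).trans_le (le_lub (hbd j) ⟨j', h2, rfl⟩)
    · simp only [e, if_neg h]
      exact hσ.1 i j hij
  refine ⟨e, ⟨fun i j hij => (he1 i).trans_lt (he2 i j hij),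
    fun i => (he1 i).trans_lt (hσ.2.1 i), fun ν hν => ?_⟩, fun i hi1 hi2 y hy => ?_⟩
  · obtain ⟨i, hi⟩ := hσ.2.2 ν hν
    obtain ⟨j, hj⟩ := exists_gt' hD i
    exact ⟨j, hi.trans (he2 i j hj)⟩
  · have h : Lim i := ⟨hi1, hi2⟩
    simp only [e, if_pos h] at hy
    obtain ⟨_, ⟨j, hj, rfl⟩, hj2⟩ := lt_of_lt_lub hy
    obtain ⟨j', h1, h2⟩ := hi2 j hj
    exact ⟨j', h2, hj2.trans (he2 j j' h1)⟩

omit [LinearOrder L] [WellFoundedLT M] [WellFoundedLT L] in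
theorem mk_dem_le {α : Cardinal.{0}} {θ : M → Cardinal.{0}} (hθ : Thetas M α θ) (r : M)
    (Δ : Set L) (hΔ : #Δ ≤ θ r) (E : M → Set L) (hE : ∀ t < r, #(E t) ≤ θ r) :
    #(Δ ∪ ⋃ t : Set.Iio r, E t : Set L) ≤ θ r := by
  refine (mk_union_le _ _).trans ?_
  have h1 : #(⋃ t : Set.Iio r, E t : Set L) ≤ θ r := by
    refine (mk_iUnion_le_sum_mk).trans ?_
    refine (sum_le_mk_mul_iSup _).trans ?_
    refine (mul_le_mul' ((mk_set_le _).trans (hθ.mkM r)) (?_ : _ ≤ θ r)).trans ?_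
    · by_cases hne : Nonempty (Set.Iio r)
      · exact ciSup_le fun t => hE t.1 t.2
      · haveI := not_nonempty_iff.1 hne
        rw [ciSup_of_empty]
        exact bot_le
    · exact (mul_eq_self (hθ.inf r)).le
  exact (add_le_add hΔ h1).trans (add_eq_self (hθ.inf r)).le

theorem tplus (hM : RegK M) {α : Cardinal.{0}} {θ : M → Cardinal.{0}} (hθ : Thetas M α θ)
    (hL : RegK L) (hLα : #L = succ α) (y : M → K) (hy : ∀ r, CofGt (y r) (θ r))
    (hy' : ∀ r, ∀ e < y r, #(Set.Iic e) ≤ θ r) :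
    ∃ g : L → M → K, (∀ ξ r, g ξ r < y r) ∧
      (∀ ξ ξ', ξ < ξ' → ∃ r₀, ∀ r, r₀ ≤ r → g ξ r < g ξ' r) ∧
      ∀ ι : M → K, (∀ r, ι r < y r) → ∃ ξ, ¬ Stat {r | g ξ r ≤ ι r} := by
  classical
  haveI hMne := nonempty_of_regK hM
  haveI hLne := nonempty_of_regK hL
  haveI : Nonempty K := ⟨y (Classical.arbitrary M)⟩
  -- filtrations of the initial segments
  have hIio : ∀ ξ : L, #(Set.Iio ξ) ≤ α := fun ξ => by
    have := hL.small ξ
    rw [hLα] at this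
    exact lt_succ_iff.1 this
  choose Δ hΔ1 hΔ2 hΔ3 hΔ4 using fun ξ : L => exists_filt hθ (Set.Iio ξ) (hIio ξ)
  -- the well-orders `D t` of type `θ t ^{+3}`
  have hD0 : ∀ t : M, ∃ (D : Type) (_ : LinearOrder D) (_ : WellFoundedLT D),
      RegK D ∧ #D = succ (succ (succ (θ t))) := fun t =>
    exists_regK_succ _ ((hθ.inf t).trans ((le_succ _).trans (le_succ _)))
  choose D iD1 iD2 hD hDc using hD0
  have hC0 : ∀ t : M, ∃ (D : Type) (_ : LinearOrder D) (_ : WellFoundedLT D),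
      RegK D ∧ #D = succ (θ t) := fun t => exists_regK_succ _ (hθ.inf t)
  choose C iC1 iC2 hC hCc using hC0
  have hDlt : ∀ t r, t < r → #(D t) ≤ θ r := by
    intro t r htr
    rw [hDc t]
    exact ((le_succ _).trans (le_succ _)).trans (hθ.gap t r htr)
  have hDL : ∀ t, #(D t) < #L := by
    intro t
    rw [hLα]
    refine lt_succ_iff.2 ?_
    obtain ⟨r, hr⟩ := exists_gt' hM t
    exact (hDlt t r hr).trans (hθ.lt r).le
  have hCL : ∀ t, #M < #(C t) := by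
    intro t
    rw [hCc t]
    exact lt_succ_iff.2 (hθ.mkM t)
  have hML : #M < #L := by
    have t : M := Classical.arbitrary M
    rw [hLα]
    exact lt_succ_iff.2 ((hθ.mkM t).trans (hθ.lt t).le)
  -- the ladders
  have he0 : ∀ (ξ : L) (t : M), ∃ e : D t → L, (∃ σ : D t → L, Lad σ ξ) → CLad e ξ := by
    intro ξ t
    by_cases h : ∃ σ : D t → L, Lad σ ξ
    · obtain ⟨σ, hσ⟩ := h
      obtain ⟨e, he⟩ := exists_clad (hD t) ξ σ hσ
      exact ⟨e, fun _ => he⟩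
    · exact ⟨fun _ => ξ, fun h' => absurd h' h⟩
  choose e he using he0
  -- the demands
  let E : L → M → Set L := fun ξ t => {β | β < ξ ∧ β ∈ range (e ξ t)}
  obtain ⟨g, hg1, hg2, -⟩ := exists_dem (L := L) (W := M) (K := K) θ y hy
    (fun ξ r => Δ ξ r ∪ ⋃ t : Set.Iio r, E ξ t)
    (by
      intro ξ r
      refine mk_dem_le hθ r _ (hΔ2 ξ r) (E ξ) (fun t ht => ?_)
      exact (mk_le_mk_of_subset (fun β hβ => hβ.2)).trans (mk_range_le.trans (hDlt t r ht)))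
    (by
      intro ξ r β hβ
      rcases hβ with hβ | hβ
      · exact hΔ3 ξ r hβ
      · obtain ⟨t, ht⟩ := mem_iUnion.1 hβ
        exact ht.1)
    (fun _ _ => ∅) (fun _ _ => by rw [Cardinal.mk_eq_zero]; exact bot_le)
    (fun _ _ x hx => absurd hx (notMem_empty x))
  have hinc : ∀ ξ ξ', ξ < ξ' → ∃ r₀, ∀ r, r₀ ≤ r → g ξ r < g ξ' r := by
    intro ξ ξ' hξ
    obtain ⟨r₀, hr₀⟩ := hΔ4 ξ' ξ hξ
    exact ⟨r₀, fun r hr => hg2 ξ' r ξ (Or.inl (hΔ1 ξ' r₀ r hr hr₀))⟩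
  refine ⟨g, hg1, hinc, fun ι hι => ?_⟩
  by_contra hcon
  push Not at hcon
  -- limit points form a club
  choose suc hsuc using exists_gt' hM
  have hlim : ∀ r ∈ Cl suc, (∃ t, t < r) → Lim r := fun r hr h =>
    ⟨h, fun t ht => ⟨suc t, hsuc t, hr t ht⟩⟩
  -- the parts
  have hpn0 : ∀ r : M, ∃ pn : K → M, Lim r → (∀ x ∈ Set.Iic (ι r), pn x < r) ∧
      ∀ t, #{x | x ∈ Set.Iic (ι r) ∧ pn x ≤ t} ≤ θ t := by
    intro r
    by_cases h : Lim r
    · obtain ⟨pn, h1, h2⟩ := exists_parts hθ h (Set.Iic (ι r)) (hy' r _ (hι r))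
      exact ⟨pn, fun _ => ⟨h1, h2⟩⟩
    · exact ⟨fun _ => r, fun h' => absurd h' h⟩
  choose pn hpn using hpn0
  -- Fodor
  have hF : ∀ ξ, ∃ t, Stat {r | (g ξ r ≤ ι r ∧ Lim r) ∧ pn r (g ξ r) = t} := by
    intro ξ
    have h1 : Stat {r | g ξ r ≤ ι r ∧ Lim r} := by
      refine (((hcon ξ).inter_cl suc).tail (Classical.arbitrary M)).mono ?_
      rintro r ⟨⟨h1, h2⟩, h3⟩
      exact ⟨h1, hlim r h2 ⟨_, h3⟩⟩
    obtain ⟨t, ht⟩ := fodor hM h1 (fun r => pn r (g ξ r)) (by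
      rintro r ⟨h2, h3⟩
      exact (hpn r h3).1 _ h2)
    exact ⟨t, ht⟩
  choose τ hτ using hF
  obtain ⟨t, ht⟩ := pigeon hL hML univ (fun ξ => by
    obtain ⟨ξ', h⟩ := exists_gt' hL ξ
    exact ⟨ξ', mem_univ _, h⟩) τ
  -- STR
  obtain ⟨η, h, hη1, hη2, hh1, hh2, hh3⟩ := str (hC t) (hD t)
    (by rw [hCc t, hDc t]; exact lt_succ _) hL (hDL t) (cof M) {r | t < r}
    (by
      obtain ⟨r, hr⟩ := exists_gt' hM t
      exact ⟨r, fun r' hr' => hr.trans_le hr'⟩)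
    g (fun a b hab => hinc a b hab)
    (by
      intro δ hδ
      refine ⟨e δ t, he δ t hδ, fun i r hr => (hg2 δ r _ (Or.inr ?_)).le⟩
      exact mem_iUnion.2 ⟨⟨t, hr⟩, (he δ t hδ).1.2.1 i, ⟨i, rfl⟩⟩)
    {x | x ∈ (Set.univ : Set L) ∧ τ x = t} (fun ξ => by
      obtain ⟨s, hs, h2⟩ := ht ξ
      exact ⟨s, hs, h2⟩)
  choose nx hnx using exists_gt' (hC t)
  -- next elements
  have hnx0 : ∀ i : C t, ∃ i', i < i' ∧ ∀ j, i < j → i' ≤ j := by
    intro i
    obtain ⟨i', h1, h2⟩ := wellFounded_lt.has_min {j | i < j} (exists_gt' (hC t) i)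
    exact ⟨i', h1, fun j hj => not_lt.1 (h2 j hj)⟩
  choose nx hnx1 hnx2 using hnx0
  have hr0 : ∀ i : C t, ∃ r, t < r ∧ (g (η i) r ≤ ι r ∧ Lim r ∧ pn r (g (η i) r) = t) ∧
      h i r ≤ g (η i) r ∧ g (η i) r < h (nx i) r := by
    intro i
    obtain ⟨r₀, hr₀⟩ := ev_cof.1 (hh2 i)
    obtain ⟨r₁, hr₁⟩ := ev_cof.1 (hh3 i (nx i) (hnx1 i))
    obtain ⟨r, ⟨⟨hr1, hr2⟩, hr3⟩, hr4⟩ := (hτ (η i)).ub (max t (max r₀ r₁))
    rw [(hη1 i).2] at hr3
    refine ⟨r, (le_max_left _ _).trans_lt hr4, ⟨hr1, hr2, hr3⟩, hr₀ r ?_, hr₁ r ?_⟩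
    · exact ((le_max_left _ _).trans (le_max_right _ _)).trans hr4.le
    · exact ((le_max_right _ _).trans (le_max_right _ _)).trans hr4.le
  choose ρ hρ1 hρ2 hρ3 hρ4 using hr0
  obtain ⟨r, hr⟩ := pigeon (hC t) (hCL t) univ (fun i => by
    obtain ⟨j, h⟩ := exists_gt' (hC t) i
    exact ⟨j, mem_univ _, h⟩) ρ
  obtain ⟨s, hs, -⟩ := hr (nonempty_of_regK (hC t)).some
  have htr : t < r := by rw [← hs.2]; exact hρ1 s
  have hlr : Lim r := by rw [← hs.2]; exact (hρ2 s).2.1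
  have hcard := (hpn r hlr).2 t
  have hinj : #{x | x ∈ (Set.univ : Set (C t)) ∧ ρ x = r} ≤ #{x | x ∈ Set.Iic (ι r) ∧ pn r x ≤ t} := by
    refine mk_le_of_injective (f := fun i => ⟨g (η i.1) r, ?_, ?_⟩) ?_
    · have := (hρ2 i.1).1
      rw [i.2.2] at this
      exact this
    · have := (hρ2 i.1).2.2
      rw [i.2.2] at this
      exact this.le
    · have hmono : ∀ i j : C t, ρ i = r → ρ j = r → i < j → g (η i) r < g (η j) r := by
        intro i j hi hj hij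
        have h1 := hρ4 i
        have h2 := hρ3 j
        rw [hi] at h1
        rw [hj] at h2
        have h3 := hh1 (nx i) j (hnx2 i j hij) r htr
        exact h1.trans_le (h3.trans h2)
      intro i j hij
      have hij' : g (η i.1) r = g (η j.1) r := congrArg Subtype.val hij
      rcases lt_trichotomy i.1 j.1 with h1 | h1 | h1
      · exact absurd hij' (hmono _ _ i.2.2 j.2.2 h1).ne
      · exact Subtype.ext h1
      · exact absurd hij' (hmono _ _ j.2.2 i.2.2 h1).ne'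
  rw [(ub_iff (hC t) _).1 hr, hCc t] at hinj
  exact absurd (hinj.trans hcard) (not_le.2 (lt_succ _))

end Pool.Agent.LibPcf
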