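import Pool.Agent.LibPcf.Nd

/-! [GS76] Trees of size at most `α`; cofinality trichotomy. -/

set_option autoImplicit false

namespace Pool.Agent.LibPcf

open Cardinal Set Order Filter
open Pool.Agent.LibGP76 Pool.Agent.LibGPR

/-- The set of the nodes reached from the root. -/
inductive Tr {X : Type} (Br : X → Set X) (x₀ : X) : X → Prop
  | root : Tr Br x₀ x₀
  | step (x y : X) (hx : Tr Br x₀ x) (hy : y ∈ Br x) : Tr Br x₀ y

/-- The levels of the tree. -/
def TrLev {X : Type} (Br : X → Set X) (x₀ : X) : ℕ → Set X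
  | 0 => {x₀}
  | n + 1 => {y | ∃ x ∈ TrLev Br x₀ n, y ∈ Br x}

theorem mk_tr_le {X : Type} (Br : X → Set X) (x₀ : X) (α : Cardinal.{0}) (hα : ℵ₀ ≤ α)
    (hBr : ∀ x, #(Br x) ≤ α) : #{x | Tr Br x₀ x} ≤ α := by
  classical
  set V : ℕ → Set X := TrLev Br x₀ with hV
  have hV0 : V 0 = {x₀} := rfl
  have hVs : ∀ n, V (n + 1) = ⋃ x : V n, Br x.1 := fun n => by
    ext y
    simp only [mem_iUnion]
    show (∃ x ∈ V n, y ∈ Br x) ↔ _
    constructor
    · rintro ⟨x, hx, hy⟩
      exact ⟨⟨x, hx⟩, hy⟩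
    · rintro ⟨⟨x, hx⟩, hy⟩
      exact ⟨x, hx, hy⟩
  have h1 : ∀ n, #(V n) ≤ α := by
    intro n
    induction n with
    | zero =>
      rw [hV0, mk_singleton]
      exact one_le_aleph0.trans hα
    | succ n ih =>
      rw [hVs]
      refine mk_iUnion_le_sum_mk.trans ?_
      refine (sum_le_mk_mul_iSup _).trans ?_
      refine (mul_le_mul' ih (?_ : _ ≤ α)).trans (mul_eq_self hα).le
      by_cases hne : Nonempty (V n)
      · exact ciSup_le fun t => hBr t.1
      · haveI := not_nonempty_iff.1 hne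
        rw [ciSup_of_empty]
        exact bot_le
  have h2 : {x | Tr Br x₀ x} ⊆ ⋃ n, V n := by
    intro x hx
    have hx' : Tr Br x₀ x := hx
    clear hx
    induction hx' with
    | root => exact mem_iUnion.2 ⟨0, by rw [hV0]; exact rfl⟩
    | step x y _ hy ih =>
      obtain ⟨n, hn⟩ := mem_iUnion.1 ih
      exact mem_iUnion.2 ⟨n + 1, by rw [hVs]; exact mem_iUnion.2 ⟨⟨x, hn⟩, hy⟩⟩
  refine (mk_le_mk_of_subset h2).trans ?_
  refine mk_iUnion_le_sum_mk.trans ?_
  refine (sum_le_mk_mul_iSup _).trans ?_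
  refine (mul_le_mul' ((mk_le_aleph0).trans hα) (ciSup_le h1)).trans (mul_eq_self hα).le

/-- A ladder of type `L` below a point of cofinality `#L = α⁺`. -/
theorem exists_lad_succ {L K : Type} [LinearOrder L] [WellFoundedLT L] [LinearOrder K]
    {α : Cardinal.{0}} (hL : RegK L) (hLα : #L = succ α)
    (x : K) (h1 : CofGt x α) (h2 : ¬ CofGt x (succ α)) : ∃ σ : L → K, Lad σ x := by
  classical
  haveI hLne := nonempty_of_regK hL
  unfold CofGt at h2
  push Not at h2
  obtain ⟨S, hS1, hS2, hS3⟩ := h2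
  by_cases hSne : Nonempty S
  swap
  · exfalso
    obtain ⟨b, hb, -⟩ := h1 ∅ (by rw [mk_eq_zero]; exact bot_le) (fun s hs => absurd hs (notMem_empty s))
    obtain ⟨s, hs, -⟩ := hS3 b hb
    exact hSne ⟨⟨s, hs⟩⟩
  have h3 : #S ≤ #L := by rwa [hLα]
  obtain ⟨φ⟩ := h3
  have hinv : Function.Surjective (Function.invFun φ) := Function.invFun_surjective φ.injective
  haveI : Nonempty K := ⟨x⟩
  have hIio : ∀ ξ : L, #(Set.Iio ξ) ≤ α := fun ξ => by
    have := hL.small ξ
    rw [hLα] at this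
    exact lt_succ_iff.1 this
  obtain ⟨g, hg1, hg2, hg3⟩ := exists_dem (L := L) (W := Unit) (K := K) (fun _ => α)
    (fun _ => x) (fun _ => h1) (fun ξ _ => Set.Iio ξ) (fun ξ _ => hIio ξ)
    (fun ξ _ β hβ => hβ) (fun ξ _ => {z | ∃ b, b < x ∧ (Function.invFun φ ξ).1 < x ∧ z =
      (Function.invFun φ ξ).1})
    (by
      intro ξ _
      refine (mk_le_mk_of_subset (t := {(Function.invFun φ ξ).1}) ?_).trans ?_
      · rintro z ⟨b, -, -, rfl⟩
        exact rfl
      · rw [mk_singleton]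
        by_contra hcon
        rw [not_le] at hcon
        have h4 : α = 0 := by
          have : α < 1 := hcon
          rwa [Cardinal.lt_one_iff] at this
        have h5 := hL.unc
        rw [hLα, h4] at h5
        have h6 : (succ (0 : Cardinal.{0})) ≤ 1 := succ_le_of_lt zero_lt_one
        exact absurd (h5.trans_le h6) (not_lt.2 one_le_aleph0))
    (by
      rintro ξ _ z ⟨b, -, h, rfl⟩
      exact h)
  refine ⟨fun ξ => g ξ (), fun i j hij => hg2 j () i hij, fun i => hg1 i (), fun ν hν => ?_⟩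
  obtain ⟨s, hs, hνs⟩ := hS3 ν hν
  obtain ⟨i, hi⟩ := hinv ⟨s, hs⟩
  refine ⟨i, hνs.trans_lt (hg3 i () s ⟨ν, hν, ?_, ?_⟩)⟩
  · rw [hi]
    exact hS2 s hs
  · rw [hi]

end Pool.Agent.LibPcf
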