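import Pool.Agent.LibPcf.Tplus

/-! [GS76] UNI: universal sequences. -/

set_option autoImplicit false

namespace Pool.Agent.LibPcf

open Cardinal Set Order Filter
open Pool.Agent.LibGP76 Pool.Agent.LibGPR

variable {M L K W : Type} [LinearOrder M] [LinearOrder L] [LinearOrder K] [WellFoundedLT M]
  [WellFoundedLT L] [WellFoundedLT K]

/-- `g` is bounded on `T` modulo the sets of bounded rank. -/
def BddOn (rk : W → M) (y : W → K) (T : Set W) (g : L → W → K) : Prop :=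
  ∃ b : W → K, (∀ w, b w < y w) ∧ ∀ ξ, ∃ r₀, ∀ w ∈ T, r₀ ≤ rk w → g ξ w ≤ b w

/-- Every family of size `#L` is bounded on `T`. -/
def BB (L : Type) (rk : W → M) (y : W → K) (T : Set W) : Prop :=
  ∀ g : L → W → K, (∀ ξ w, g ξ w < y w) → BddOn rk y T g

omit [WellFoundedLT M] [WellFoundedLT K] in
theorem exists_inc {α : Cardinal.{0}} {θ : M → Cardinal.{0}} (hθ : Thetas M α θ)
    (hL : RegK L) (hLα : #L = succ α) [Nonempty K] (rk : W → M) (y : W → K)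
    (hy : ∀ w, CofGt (y w) (θ (rk w)))
    (val : L → W → Set K) (hval : ∀ ξ w, #(val ξ w) ≤ θ (rk w))
    (hval' : ∀ ξ w, ∀ x ∈ val ξ w, x < y w) :
    ∃ g : L → W → K, (∀ ξ w, g ξ w < y w) ∧
      (∀ ξ ξ', ξ < ξ' → ∃ r₀, ∀ w, r₀ ≤ rk w → g ξ w < g ξ' w) ∧
      ∀ ξ w, ∀ x ∈ val ξ w, x < g ξ w := by
  have hIio : ∀ ξ : L, #(Set.Iio ξ) ≤ α := fun ξ => by
    have := hL.small ξ
    rw [hLα] at this
    exact lt_succ_iff.1 this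
  choose Δ hΔ1 hΔ2 hΔ3 hΔ4 using fun ξ : L => exists_filt hθ (Set.Iio ξ) (hIio ξ)
  obtain ⟨g, hg1, hg2, hg3⟩ := exists_dem (L := L) (W := W) (K := K) (fun w => θ (rk w)) y hy
    (fun ξ w => Δ ξ (rk w)) (fun ξ w => hΔ2 ξ (rk w)) (fun ξ w β hβ => hΔ3 ξ _ hβ) val hval hval'
  refine ⟨g, hg1, fun ξ ξ' hξ => ?_, hg3⟩
  obtain ⟨r₀, hr₀⟩ := hΔ4 ξ' ξ hξ
  exact ⟨r₀, fun w hw => hg2 ξ' w ξ (hΔ1 ξ' r₀ _ hw hr₀)⟩

theorem uni {α : Cardinal.{0}} {θ : M → Cardinal.{0}} (hθ : Thetas M α θ)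
    (hL : RegK L) (hLα : #L = succ α) (rk : W → M) (y : W → K)
    (hy : ∀ w, CofGt (y w) (θ (rk w))) (Ks : Set W) (κ : Cardinal.{0}) (hκ : ℵ₀ ≤ κ)
    (hKκ : #Ks ≤ κ) (hκα : succ κ ≤ α) (hKs : ∀ w ∈ Ks, succ κ ≤ θ (rk w)) :
    ∃ h : L → W → K, (∀ ξ w, h ξ w < y w) ∧
      (∀ ξ ξ', ξ < ξ' → ∃ r₀, ∀ w, r₀ ≤ rk w → h ξ w < h ξ' w) ∧
      ∀ T ⊆ Ks, ¬ BB L rk y T → ¬ BddOn rk y T h := by
  classical
  have hLne := nonempty_of_regK hL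
  by_cases hWne : Nonempty W
  swap
  · haveI := not_nonempty_iff.1 hWne
    refine ⟨fun _ w => y w, fun _ w => isEmptyElim w, fun ξ ξ' _ => ?_, fun T _ hT => ?_⟩
    · by_cases hM : Nonempty M
      · exact ⟨hM.some, fun w => isEmptyElim w⟩
      · exfalso
        have h0 : (0 : Cardinal) < α := (aleph0_pos.trans_le hκ).trans ((lt_succ κ).trans_le hκα)
        obtain ⟨r, -⟩ := hθ.lim 0 h0
        exact hM ⟨r⟩
    · exfalso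
      apply hT
      intro g _
      refine ⟨fun w => y w, fun w => isEmptyElim w, fun ξ => ?_⟩
      have h0 : (0 : Cardinal) < α := (aleph0_pos.trans_le hκ).trans ((lt_succ κ).trans_le hκα)
      obtain ⟨r, -⟩ := hθ.lim 0 h0
      exact ⟨r, fun w => isEmptyElim w⟩
  haveI : Nonempty K := ⟨y hWne.some⟩
  let Gd : (L → W → K) → Prop := fun h => (∀ ξ w, h ξ w < y w) ∧
      (∀ ξ ξ', ξ < ξ' → ∃ r₀, ∀ w, r₀ ≤ rk w → h ξ w < h ξ' w)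
  by_contra hcon
  have hc : ∀ h : L → W → K, ∃ (T : Set W) (g : L → W → K) (b : W → K), Gd h →
      T ⊆ Ks ∧ ¬ BddOn rk y T g ∧ (∀ ξ w, g ξ w < y w) ∧ (∀ w, b w < y w) ∧
      ∀ ξ, ∃ r₀, ∀ w ∈ T, r₀ ≤ rk w → h ξ w ≤ b w := by
    intro h
    by_cases hg : Gd h
    · by_contra hno
      refine hcon ⟨h, hg.1, hg.2, fun T hT hBB hb => hno ?_⟩
      obtain ⟨b, hb1, hb2⟩ := hb
      unfold BB at hBB
      push Not at hBB
      obtain ⟨g, hg1, hg2⟩ := hBB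
      exact ⟨T, g, b, fun _ => ⟨hT, hg2, hg1, hb1, hb2⟩⟩
    · exact ⟨∅, h, y, fun h' => absurd h' hg⟩
  choose TT gg bb hc using hc
  obtain ⟨Z, iZ1, iZ2, hZ, hZc⟩ := exists_regK_succ κ hκ
  have hZne := nonempty_of_regK hZ
  have hZL : #Z < #L := by
    rw [hZc, hLα]
    exact lt_succ_iff.2 hκα
  obtain ⟨H, hH⟩ := exists_rec (D := Z) (A := L → W → K)
    (fun ζ H s => (∀ ζ' < ζ, Gd (H ζ')) → Gd s ∧ ∀ ζ' < ζ, ∀ w ∈ Ks, ∀ ξ,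
      H ζ' ξ w < s ξ w ∧ gg (H ζ') ξ w < s ξ w ∧ bb (H ζ') w < s ξ w)
    (by
      intro ζ H H' s hHH h h2
      obtain ⟨h3, h4⟩ := h (fun ζ' hζ' => by rw [hHH ζ' hζ']; exact h2 ζ' hζ')
      refine ⟨h3, fun ζ' hζ' w hw ξ => ?_⟩
      rw [← hHH ζ' hζ']
      exact h4 ζ' hζ' w hw ξ)
    (by
      intro ζ H
      by_cases h : ∀ ζ' < ζ, Gd (H ζ')
      swap
      · exact ⟨fun _ => y, fun h' => absurd h' h⟩
      obtain ⟨g, hg1, hg2, hg3⟩ := exists_inc hθ hL hLα rk y hy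
        (fun ξ w => {x | w ∈ Ks ∧ x ∈ ((range fun ζ' : Set.Iio ζ => H ζ' ξ w) ∪
          (range fun ζ' : Set.Iio ζ => gg (H ζ') ξ w)) ∪
          (range fun ζ' : Set.Iio ζ => bb (H ζ') w)})
        (by
          intro ξ w
          by_cases hw : w ∈ Ks
          · have hs : #(Set.Iio ζ) ≤ θ (rk w) := by
              refine (hZ.small ζ).le.trans ?_
              rw [hZc]
              exact hKs w hw
            refine (mk_le_mk_of_subset (fun x hx => hx.2)).trans ?_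
            refine (mk_union_le _ _).trans ?_
            refine (add_le_add ((mk_union_le _ _).trans (add_le_add
              (mk_range_le.trans hs) (mk_range_le.trans hs))) (mk_range_le.trans hs)).trans ?_
            rw [add_eq_self (hθ.inf _), add_eq_self (hθ.inf _)]
          · have : {x | w ∈ Ks ∧ x ∈ ((range fun ζ' : Set.Iio ζ => H ζ' ξ w) ∪
                (range fun ζ' : Set.Iio ζ => gg (H ζ') ξ w)) ∪
                (range fun ζ' : Set.Iio ζ => bb (H ζ') w)} = ∅ := by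
              ext x
              simp [hw]
            rw [this, mk_eq_zero]
            exact bot_le)
        (by
          rintro ξ w x ⟨-, (⟨ζ', rfl⟩ | ⟨ζ', rfl⟩) | ⟨ζ', rfl⟩⟩
          · exact (h ζ' ζ'.2).1 ξ w
          · exact (hc (H ζ') (h ζ' ζ'.2)).2.2.1 ξ w
          · exact (hc (H ζ') (h ζ' ζ'.2)).2.2.2.1 w)
      refine ⟨g, fun _ => ⟨⟨hg1, hg2⟩, fun ζ' hζ' w hw ξ => ⟨?_, ?_, ?_⟩⟩⟩
      · exact hg3 ξ w _ ⟨hw, Or.inl (Or.inl ⟨⟨ζ', hζ'⟩, rfl⟩)⟩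
      · exact hg3 ξ w _ ⟨hw, Or.inl (Or.inr ⟨⟨ζ', hζ'⟩, rfl⟩)⟩
      · exact hg3 ξ w _ ⟨hw, Or.inr ⟨⟨ζ', hζ'⟩, rfl⟩⟩)
  have hGd : ∀ ζ, Gd (H ζ) := by
    intro ζ
    induction ζ using WellFoundedLT.induction with
    | _ ζ ih => exact (hH ζ ih).1
  have hH2 : ∀ ζ, ∀ ζ' < ζ, ∀ w ∈ Ks, ∀ ξ,
      H ζ' ξ w < H ζ ξ w ∧ gg (H ζ') ξ w < H ζ ξ w ∧ bb (H ζ') w < H ζ ξ w :=
    fun ζ => (hH ζ fun ζ' _ => hGd ζ').2
  obtain ⟨ξ₀⟩ := hLne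
  -- the supremum
  have hb : ∀ w, ∃ b, b < y w ∧ (w ∈ Ks → ∀ ζ, H ζ ξ₀ w < b) := by
    intro w
    by_cases hw : w ∈ Ks
    · obtain ⟨b, hb1, hb2⟩ := ((hy w).mono (hKs w hw)).fam (I := Z) hZc.le (fun ζ => H ζ ξ₀ w)
        (fun ζ => (hGd ζ).1 ξ₀ w)
      exact ⟨b, hb1, fun _ => hb2⟩
    · exact ⟨H hZne.some ξ₀ w, (hGd _).1 ξ₀ w, fun h => absurd h hw⟩
  choose b hb1 hb2 using hb
  choose nx hnx using exists_gt' hZ
  have hi : ∀ ζ : Z, ∃ i : L, ∀ r₀, ∃ w ∈ TT (H ζ), r₀ ≤ rk w ∧ b w < H (nx ζ) i w := by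
    intro ζ
    by_contra hno
    push Not at hno
    refine (hc _ (hGd ζ)).2.1 ⟨b, hb1, fun ξ => ?_⟩
    obtain ⟨r₀, hr₀⟩ := hno ξ
    exact ⟨r₀, fun w hw hr => ((hH2 _ _ (hnx ζ) w ((hc _ (hGd ζ)).1 hw) ξ).2.1.le).trans
      (hr₀ w hw hr)⟩
  choose i hi using hi
  obtain ⟨j, hj⟩ := exists_sup hL hZL i
  have hw : ∀ ζ : Z, ∃ w : Ks, H ζ j w ≤ b w ∧ b w < H (nx ζ) j w := by
    intro ζ
    obtain ⟨r₀, hr₀⟩ := (hc _ (hGd ζ)).2.2.2.2 j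
    obtain ⟨r₁, hr₁⟩ := (hGd (nx ζ)).2 _ _ (hj ζ)
    obtain ⟨w, hw1, hw2, hw3⟩ := hi ζ (max r₀ r₁)
    have hwK := (hc _ (hGd ζ)).1 hw1
    refine ⟨⟨w, hwK⟩, ?_, hw3.trans (hr₁ w ((le_max_right _ _).trans hw2))⟩
    refine (hr₀ w hw1 ((le_max_left _ _).trans hw2)).trans ?_
    exact ((hH2 _ _ (hnx ζ) w hwK ξ₀).2.2.trans (hb2 w hwK (nx ζ))).le
  choose w hw1 hw2 using hw
  obtain ⟨v, hv⟩ := pigeon hZ (by rw [hZc]; exact lt_succ_iff.2 hKκ) (Set.univ : Set Z)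
    (fun ζ => ⟨nx ζ, mem_univ _, hnx ζ⟩) w
  obtain ⟨ζ₁, ⟨-, h1⟩, -⟩ := hv hZne.some
  obtain ⟨ζ₂, ⟨-, h2⟩, h3⟩ := hv (nx ζ₁)
  have h4 := hw2 ζ₁
  have h5 := hw1 ζ₂
  rw [h1] at h4
  rw [h2] at h5
  exact absurd ((hH2 _ _ h3 v v.2 j).1.trans_le h5) (not_lt.2 h4.le)

end Pool.Agent.LibPcf
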